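import Mathlib

set_option autoImplicit false
set_option linter.unusedSectionVars false

namespace Pool.Agent.H583Z.Rec

open Set Topology TopologicalSpace

/-- A splitting scheme: a binary tree of pairs of clopen cells. -/
structure Scheme (X Y : Type) [TopologicalSpace X] [TopologicalSpace Y] where
  P : List Bool → Set X
  Q : List Bool → Set Y
  c : List Bool → Set X
  d : List Bool → Set Y
  P0 : P [] = univ
  Q0 : Q [] = univ
  cc : ∀ s, IsClopen (c s)
  dc : ∀ s, IsClopen (d s)
  Pt : ∀ s, P (true :: s) = P s ∩ c s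
  Pf : ∀ s, P (false :: s) = P s \ c s
  Qt : ∀ s, Q (true :: s) = Q s ∩ d s
  Qf : ∀ s, Q (false :: s) = Q s \ d s

section one
variable {X : Type} [TopologicalSpace X]

open Classical in
noncomputable def code (c : List Bool → Set X) (x : X) : ℕ → List Bool
  | 0 => []
  | k + 1 => decide (x ∈ c (code c x k)) :: code c x k

lemma code_length (c : List Bool → Set X) (x : X) (k : ℕ) : (code c x k).length = k := by
  induction k with
  | zero => rfl
  | succ k ih => simp [code, ih]

variable {P c : List Bool → Set X}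

lemma mem_iff_code (P0 : P [] = univ) (Pt : ∀ s, P (true :: s) = P s ∩ c s)
    (Pf : ∀ s, P (false :: s) = P s \ c s) (x : X) (s : List Bool) :
    x ∈ P s ↔ code c x s.length = s := by
  induction s with
  | nil => simp [P0, code]
  | cons b s ih =>
    cases b
    · rw [Pf, mem_sdiff, ih]
      simp only [List.length_cons, code, List.cons.injEq, decide_eq_false_iff_not]
      constructor
      · rintro ⟨h1, h2⟩
        exact ⟨by rw [h1]; exact h2, h1⟩
      · rintro ⟨h1, h2⟩
        exact ⟨h2, by rw [h2] at h1; exact h1⟩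
    · rw [Pt, mem_inter_iff, ih]
      simp only [List.length_cons, code, List.cons.injEq, decide_eq_true_eq]
      constructor
      · rintro ⟨h1, h2⟩
        exact ⟨by rw [h1]; exact h2, h1⟩
      · rintro ⟨h1, h2⟩
        exact ⟨h2, by rw [h2] at h1; exact h1⟩

lemma clopen_cell (P0 : P [] = univ) (Pt : ∀ s, P (true :: s) = P s ∩ c s)
    (Pf : ∀ s, P (false :: s) = P s \ c s) (cc : ∀ s, IsClopen (c s)) (s : List Bool) :
    IsClopen (P s) := by
  induction s with
  | nil => rw [P0]; exact isClopen_univ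
  | cons b s ih =>
    cases b
    · rw [Pf]; exact ih.diff (cc s)
    · rw [Pt]; exact ih.inter (cc s)

lemma mem_code (P0 : P [] = univ) (Pt : ∀ s, P (true :: s) = P s ∩ c s)
    (Pf : ∀ s, P (false :: s) = P s \ c s) (x : X) (k : ℕ) : x ∈ P (code c x k) := by
  rw [mem_iff_code P0 Pt Pf, code_length]

lemma cell_anti (Pt : ∀ s, P (true :: s) = P s ∩ c s)
    (Pf : ∀ s, P (false :: s) = P s \ c s) (b : Bool) (s : List Bool) : P (b :: s) ⊆ P s := by
  cases b
  · rw [Pf]; exact sdiff_subset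
  · rw [Pt]; exact inter_subset_left

end one

section two
variable {X Y : Type} [TopologicalSpace X] [TopologicalSpace Y]

lemma exists_partner [CompactSpace Y] (S : Scheme X Y)
    (hne : ∀ s, (S.P s).Nonempty → (S.Q s).Nonempty) (x : X) :
    ∃ y, ∀ k, code S.d y k = code S.c x k := by
  have h : (⋂ k, S.Q (code S.c x k)).Nonempty := by
    apply IsCompact.nonempty_iInter_of_sequence_nonempty_isCompact_isClosed
    · intro k
      exact cell_anti S.Qt S.Qf _ _
    · intro k
      exact hne _ ⟨x, mem_code S.P0 S.Pt S.Pf x k⟩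
    · exact (clopen_cell S.Q0 S.Qt S.Qf S.dc _).isClosed.isCompact
    · intro k
      exact (clopen_cell S.Q0 S.Qt S.Qf S.dc _).isClosed
  obtain ⟨y, hy⟩ := h
  refine ⟨y, fun k => ?_⟩
  have := (mem_iff_code S.Q0 S.Qt S.Qf y _).1 (mem_iInter.1 hy k)
  rwa [code_length] at this

def Scheme.swap (S : Scheme X Y) : Scheme Y X :=
  ⟨S.Q, S.P, S.d, S.c, S.Q0, S.P0, S.dc, S.cc, S.Qt, S.Qf, S.Pt, S.Pf⟩

end two

lemma code_sub {X : Type} [TopologicalSpace X] {P c : List Bool → Set X}
    (Pt : ∀ s, P (true :: s) = P s ∩ c s) {x : X} {k : ℕ} {C : Set X}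
    (hC : c (code c x k) = C) (hx : x ∈ C) : P (code c x (k + 1)) ⊆ C := by
  have : code c x (k + 1) = true :: code c x k := by
    simp [code, hC, hx]
  rw [this, Pt, hC]
  exact inter_subset_right

lemma code_anti {X : Type} [TopologicalSpace X] {P c : List Bool → Set X}
    (Pt : ∀ s, P (true :: s) = P s ∩ c s) (Pf : ∀ s, P (false :: s) = P s \ c s) (x : X)
    {k l : ℕ} (h : k ≤ l) : P (code c x l) ⊆ P (code c x k) := by
  induction l, h using Nat.le_induction with
  | base => exact le_rfl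
  | succ l _ ih => exact (cell_anti Pt Pf _ _).trans ih

/-- cells shrink into every neighbourhood -/
lemma code_nhds {X : Type} [TopologicalSpace X] [CompactSpace X] [T2Space X]
    [TotallyDisconnectedSpace X] {P c : List Bool → Set X}
    (Pt : ∀ s, P (true :: s) = P s ∩ c s)
    (hall : ∀ C : Set X, IsClopen C → ∃ k, ∀ s : List Bool, s.length = k → c s = C)
    (x : X) {U : Set X} (hU : U ∈ 𝓝 x) : ∃ k, P (code c x k) ⊆ U := by
  obtain ⟨C, hC, hx, hCU⟩ := (isTopologicalBasis_isClopen (X := X)).mem_nhds_iff.1 hU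
  obtain ⟨k, hk⟩ := hall C hC
  exact ⟨k + 1, (code_sub Pt (hk _ (code_length _ _ _)) hx).trans hCU⟩

theorem backforth {X Y : Type} [TopologicalSpace X] [CompactSpace X] [T2Space X]
    [TotallyDisconnectedSpace X] [SecondCountableTopology X]
    [TopologicalSpace Y] [CompactSpace Y] [T2Space Y]
    [TotallyDisconnectedSpace Y] [SecondCountableTopology Y]
    (M : Set X → Set Y → Prop) (h0 : M univ univ)
    (hne : ∀ P Q, M P Q → (P.Nonempty ↔ Q.Nonempty))
    (hL : ∀ P Q, IsClopen P → IsClopen Q → M P Q → ∀ C, IsClopen C →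
      ∃ D, IsClopen D ∧ M (P ∩ C) (Q ∩ D) ∧ M (P \ C) (Q \ D))
    (hR : ∀ P Q, IsClopen P → IsClopen Q → M P Q → ∀ D, IsClopen D →
      ∃ C, IsClopen C ∧ M (P ∩ C) (Q ∩ D) ∧ M (P \ C) (Q \ D)) :
    ∃ h : X ≃ₜ Y, ∀ x, ∀ U ∈ 𝓝 x, ∀ V ∈ 𝓝 (h x),
      ∃ P Q, M P Q ∧ x ∈ P ∧ P ⊆ U ∧ h x ∈ Q ∧ Q ⊆ V := by
  classical
  have : Countable (Clopens X) := Clopens.countable_iff_secondCountable.2 inferInstance
  have : Countable (Clopens Y) := Clopens.countable_iff_secondCountable.2 inferInstance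
  obtain ⟨CX, hCX⟩ := exists_surjective_nat (Clopens X)
  obtain ⟨CY, hCY⟩ := exists_surjective_nat (Clopens Y)
  let St := {pq : Set X × Set Y // IsClopen pq.1 ∧ IsClopen pq.2 ∧ M pq.1 pq.2}
  have step : ∀ (st : St) (k : ℕ), ∃ cd : Set X × Set Y, IsClopen cd.1 ∧ IsClopen cd.2 ∧
      M (st.1.1 ∩ cd.1) (st.1.2 ∩ cd.2) ∧ M (st.1.1 \ cd.1) (st.1.2 \ cd.2) ∧
      (k % 2 = 0 → cd.1 = CX (k / 2)) ∧ (k % 2 = 1 → cd.2 = CY (k / 2)) := by
    rintro ⟨⟨P, Q⟩, hP, hQ, hM⟩ k
    rcases Nat.mod_two_eq_zero_or_one k with hk | hk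
    · obtain ⟨D, hD, h1, h2⟩ := hL P Q hP hQ hM _ (CX (k / 2)).isClopen
      exact ⟨(CX (k / 2), D), (CX (k / 2)).isClopen, hD, h1, h2, fun _ => rfl,
        fun h => by omega⟩
    · obtain ⟨C, hC, h1, h2⟩ := hR P Q hP hQ hM _ (CY (k / 2)).isClopen
      exact ⟨(C, CY (k / 2)), hC, (CY (k / 2)).isClopen, h1, h2, fun h => by omega,
        fun _ => rfl⟩
  choose cd hc hd hMt hMf he ho using step
  let node : List Bool → St := fun s => List.rec (motive := fun _ => St)
    ⟨(univ, univ), isClopen_univ, isClopen_univ, h0⟩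
    (fun b s st => Bool.rec (motive := fun _ => St)
      ⟨(st.1.1 \ (cd st s.length).1, st.1.2 \ (cd st s.length).2),
        st.2.1.diff (hc _ _), st.2.2.1.diff (hd _ _), hMf _ _⟩
      ⟨(st.1.1 ∩ (cd st s.length).1, st.1.2 ∩ (cd st s.length).2),
        st.2.1.inter (hc _ _), st.2.2.1.inter (hd _ _), hMt _ _⟩ b) s
  let S : Scheme X Y :=
    ⟨fun s => (node s).1.1, fun s => (node s).1.2, fun s => (cd (node s) s.length).1,
      fun s => (cd (node s) s.length).2, rfl, rfl, fun s => hc _ _, fun s => hd _ _,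
      fun _ => rfl, fun _ => rfl, fun _ => rfl, fun _ => rfl⟩
  have hMS : ∀ s, M (S.P s) (S.Q s) := fun s => (node s).2.2.2
  have hallX : ∀ C : Set X, IsClopen C → ∃ k, ∀ s : List Bool, s.length = k → S.c s = C := by
    intro C hC
    obtain ⟨i, hi⟩ := hCX ⟨C, hC⟩
    refine ⟨2 * i, fun s hs => ?_⟩
    have := he (node s) s.length (by omega)
    rw [show s.length / 2 = i by omega, hi] at this
    exact this
  have hallY : ∀ C : Set Y, IsClopen C → ∃ k, ∀ s : List Bool, s.length = k → S.d s = C := by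
    intro C hC
    obtain ⟨i, hi⟩ := hCY ⟨C, hC⟩
    refine ⟨2 * i + 1, fun s hs => ?_⟩
    have := ho (node s) s.length (by omega)
    rw [show s.length / 2 = i by omega, hi] at this
    exact this
  choose f hf using exists_partner S (fun s => (hne _ _ (hMS s)).1)
  choose g hg using exists_partner S.swap (fun s => (hne _ _ (hMS s)).2)
  have injX : ∀ x x' : X, (∀ k, code S.c x k = code S.c x' k) → x = x' := by
    intro x x' h
    apply Inseparable.eq
    rw [inseparable_iff_specializes_and]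
    constructor
    · rw [specializes_iff_pure]
      intro U hU
      obtain ⟨k, hk⟩ := code_nhds S.Pt hallX x' hU
      exact hk (h k ▸ mem_code S.P0 S.Pt S.Pf x k)
    · rw [specializes_iff_pure]
      intro U hU
      obtain ⟨k, hk⟩ := code_nhds S.Pt hallX x hU
      exact hk ((h k).symm ▸ mem_code S.P0 S.Pt S.Pf x' k)
  have injY : ∀ y y' : Y, (∀ k, code S.d y k = code S.d y' k) → y = y' := by
    intro x x' h
    apply Inseparable.eq
    rw [inseparable_iff_specializes_and]
    constructor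
    · rw [specializes_iff_pure]
      intro U hU
      obtain ⟨k, hk⟩ := code_nhds S.Qt hallY x' hU
      exact hk (h k ▸ mem_code S.Q0 S.Qt S.Qf x k)
    · rw [specializes_iff_pure]
      intro U hU
      obtain ⟨k, hk⟩ := code_nhds S.Qt hallY x hU
      exact hk ((h k).symm ▸ mem_code S.Q0 S.Qt S.Qf x' k)
  let e : X ≃ Y :=
    ⟨f, g, fun x => injX _ _ fun k => (hg (f x) k).trans (hf x k),
      fun y => injY _ _ fun k => (hf (g y) k).trans (hg y k)⟩
  have hfQ : ∀ x k, f x ∈ S.Q (code S.c x k) := fun x k =>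
    hf x k ▸ mem_code S.Q0 S.Qt S.Qf (f x) k
  have hcont : Continuous e := by
    rw [continuous_iff_continuousAt]
    intro x V hV
    obtain ⟨k, hk⟩ := code_nhds S.Qt hallY (f x) hV
    rw [hf x k] at hk
    have hopen := (clopen_cell S.P0 S.Pt S.Pf S.cc (code S.c x k)).isOpen
    rw [Filter.mem_map]
    refine Filter.mem_of_superset (hopen.mem_nhds (mem_code S.P0 S.Pt S.Pf x k)) ?_
    intro x' hx'
    have := (mem_iff_code S.P0 S.Pt S.Pf x' _).1 hx'
    rw [code_length] at this
    exact hk (this ▸ hfQ x' k)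
  refine ⟨hcont.homeoOfEquivCompactToT2, fun x U hU V hV => ?_⟩
  obtain ⟨k, hk⟩ := code_nhds S.Pt hallX x hU
  obtain ⟨l, hl⟩ := code_nhds S.Qt hallY (f x) hV
  rw [hf x l] at hl
  refine ⟨S.P (code S.c x (k + l)), S.Q (code S.c x (k + l)), hMS _,
    mem_code S.P0 S.Pt S.Pf x _, (code_anti S.Pt S.Pf x (by omega)).trans hk, hfQ x _, ?_⟩
  have := code_anti S.Qt S.Qf (f x) (show l ≤ k + l by omega)
  rw [hf x, hf x] at this
  exact this.trans hl

end Pool.Agent.H583Z.Rec
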