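import Mathlib

set_option autoImplicit false
set_option linter.unusedSectionVars false

namespace Pool.Agent.H583Z.Rec

open Finset

variable {W ι : Type} [Fintype W] [DecidableEq W] [Fintype ι] [DecidableEq ι]

/-- every value is taken at least four times -/
def Rich (u : ι → W) : Prop := ∀ w, 4 ≤ #{j | u j = w}

lemma fill_of_inj (u : ι → W) (J : Finset ι) (f : W × Fin 4 → ι) (hf : Function.Injective f)
    (hJ : ∀ x, f x ∉ J) :
    ∃ v : ι → W, (∀ j, v j = u j ∨ ∃ x, f x = j ∧ v j = x.1) ∧
      ∀ w, 4 ≤ #{j | j ∉ J ∧ v j = w} := by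
  classical
  refine ⟨fun j => if h : ∃ x, f x = j then h.choose.1 else u j, fun j => ?_, fun w => ?_⟩
  · by_cases h : ∃ x, f x = j
    · exact Or.inr ⟨h.choose, h.choose_spec, by simp [h]⟩
    · exact Or.inl (by simp [h])
  · have : (univ : Finset (Fin 4)).card ≤
        #{j | j ∉ J ∧ (if h : ∃ x, f x = j then h.choose.1 else u j) = w} := by
      apply card_le_card_of_injOn (fun i => f (w, i))
      · intro i _
        have h : ∃ x, f x = f (w, i) := ⟨_, rfl⟩
        simp only [coe_filter, mem_univ, true_and, Set.mem_ofPred_eq, dif_pos h]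
        exact ⟨hJ _, by rw [hf h.choose_spec]⟩
      · intro i _ i' _ h
        exact (Prod.ext_iff.1 (hf h)).2
    simpa using this

lemma fill_free (u : ι → W) (J : Finset ι) (hJ : 4 * Fintype.card W + #J ≤ Fintype.card ι) :
    ∃ v : ι → W, ∀ w, 4 ≤ #{j | j ∉ J ∧ v j = w} := by
  have h : Fintype.card (W × Fin 4) ≤ Fintype.card {j // j ∈ Jᶜ} := by
    rw [Fintype.card_prod, Fintype.card_fin, Fintype.card_coe, card_compl]
    omega
  obtain ⟨e⟩ := Function.Embedding.nonempty_of_card_le h
  obtain ⟨v, -, hv⟩ := fill_of_inj u J (fun x => (e x).1)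
    (fun x y hxy => e.injective (Subtype.ext hxy)) (fun x => mem_compl.1 (e x).2)
  exact ⟨v, hv⟩

lemma Rich.card_mem {u : ι → W} (hu : Rich u) (S : Finset W) : 4 * #S ≤ #{j | u j ∈ S} := by
  rw [card_eq_sum_card_fiberwise (f := u) (t := S) (fun j hj => by simpa using hj), mul_comm,
    ← smul_eq_mul, ← sum_const]
  apply sum_le_sum
  intro w hw
  refine le_trans (hu w) (card_le_card ?_)
  intro j hj
  simp only [mem_filter, mem_univ, true_and] at hj ⊢
  exact ⟨hj ▸ hw, hj⟩

variable {nr : W → W → Prop}

lemma fill_near (hrefl : ∀ a, nr a a) (hconn : ∀ a b, Relation.ReflTransGen nr a b)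
    {u : ι → W} (hu : Rich u) (J : Finset ι) (hJ : #J ≤ 4)
    (hc : 4 * Fintype.card W + 4 ≤ Fintype.card ι) :
    ∃ v : ι → W, (∀ j, nr (v j) (u j)) ∧ ∀ w, 4 ≤ #{j | j ∉ J ∧ v j = w} := by
  classical
  let t : W × Fin 4 → Finset ι := fun x => {j | j ∉ J ∧ nr x.1 (u j)}
  have hall : ∀ s : Finset (W × Fin 4), #s ≤ #(s.biUnion t) := by
    intro s
    rcases s.eq_empty_or_nonempty with rfl | ⟨x0, hx0⟩
    · simp
    set S := s.image Prod.fst with hS
    have h1 : #s ≤ 4 * #S := by
      have : s ⊆ S ×ˢ (univ : Finset (Fin 4)) := fun x hx =>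
        mem_product.2 ⟨mem_image_of_mem _ hx, mem_univ _⟩
      have := card_le_card this
      rw [card_product, card_univ, Fintype.card_fin] at this
      omega
    have key : ∀ S' : Finset W, (∀ b ∈ S', ∃ a ∈ S, nr a b) →
        #{j | u j ∈ S'} ≤ #(s.biUnion t) + 4 := by
      intro S' hS'
      have : ({j | u j ∈ S'} : Finset ι) ⊆ s.biUnion t ∪ J := by
        intro j hj
        by_cases hjJ : j ∈ J
        · exact mem_union_right _ hjJ
        · obtain ⟨a, ha, hab⟩ := hS' (u j) (by simpa using hj)
          obtain ⟨x, hx, rfl⟩ := mem_image.1 ha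
          exact mem_union_left _ (mem_biUnion.2 ⟨x, hx, by simp [t, hjJ, hab]⟩)
      have h2 := card_le_card this
      have h3 := card_union_le (s.biUnion t) J
      omega
    by_cases hcl : ∃ a ∈ S, ∃ b, b ∉ S ∧ nr a b
    · obtain ⟨a, ha, b, hb, hab⟩ := hcl
      have h2 := key (insert b S) (by
        intro c hc
        rcases mem_insert.1 hc with rfl | hc
        · exact ⟨a, ha, hab⟩
        · exact ⟨c, hc, hrefl c⟩)
      have h3 := hu.card_mem (insert b S)
      rw [card_insert_of_notMem hb] at h3
      omega
    · push Not at hcl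
      have hall : ∀ b, b ∈ S := by
        intro b
        induction hconn x0.1 b with
        | refl => exact mem_image_of_mem _ hx0
        | tail _ h ih =>
          by_contra hb
          exact hcl _ ih _ hb h
      have h2 := key S (fun b hb => ⟨b, hb, hrefl b⟩)
      have h3 : #{j | u j ∈ S} = Fintype.card ι := by
        rw [← card_univ]
        congr 1
        ext j
        simp [hall]
      have h4 : #S ≤ Fintype.card W := card_le_univ _
      omega
  obtain ⟨f, hf, hft⟩ := (all_card_le_biUnion_card_iff_exists_injective t).1 hall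
  have hft' : ∀ x, f x ∉ J ∧ nr x.1 (u (f x)) := fun x => by simpa [t] using hft x
  obtain ⟨v, hv1, hv2⟩ := fill_of_inj u J f hf (fun x => (hft' x).1)
  refine ⟨v, fun j => ?_, hv2⟩
  rcases hv1 j with h | ⟨x, rfl, h⟩
  · rw [h]; exact hrefl _
  · rw [h]; exact (hft' x).2

/-- adjacency of rich sequences -/
def Adj (nr : W → W → Prop) (u v : ι → W) : Prop := Rich u ∧ Rich v ∧ ∀ j, nr (u j) (v j)

lemma Rich.comp {u : ι → W} (hu : Rich u) (e : Equiv.Perm ι) : Rich (u ∘ e) := by
  intro w
  refine le_trans (hu w) (le_of_eq ?_)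
  symm
  apply card_bij (fun j _ => e j)
  · intro j hj
    simpa using hj
  · intro a _ b _ h
    exact e.injective h
  · intro j hj
    exact ⟨e.symm j, by simpa using hj, by simp⟩

lemma adj_swap (hrefl : ∀ a, nr a a) (hsymm : ∀ a b, nr a b → nr b a) {u : ι → W} (hu : Rich u)
    {s t : ι} (h : nr (u s) (u t)) : Adj nr u (u ∘ Equiv.swap s t) := by
  refine ⟨hu, hu.comp _, fun j => ?_⟩
  simp only [Function.comp, Equiv.swap_apply_def]
  split_ifs with h1 h2
  · rw [h1]; exact h
  · rw [h2]; exact hsymm _ _ h
  · exact hrefl _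

lemma conn_swap (hrefl : ∀ a, nr a a) (hsymm : ∀ a b, nr a b → nr b a) {a b : W}
    (hab : Relation.ReflTransGen nr a b) :
    ∀ (u : ι → W), Rich u → ∀ s t, u s = a → u t = b →
      Relation.ReflTransGen (Adj nr) u (u ∘ Equiv.swap s t) := by
  induction hab using Relation.ReflTransGen.head_induction_on with
  | refl =>
    intro u hu s t hs ht
    exact Relation.ReflTransGen.single (adj_swap hrefl hsymm hu (by rw [hs, ht]; exact hrefl _))
  | @head a a' h _ ih =>
    intro u hu s t hs ht
    obtain ⟨t', ht'⟩ : ∃ t', u t' = a' := by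
      have : 0 < #{j | u j = a'} := lt_of_lt_of_le (by norm_num) (hu a')
      obtain ⟨j, hj⟩ := card_pos.1 this
      exact ⟨j, by simpa using hj⟩
    by_cases h1 : t' = s
    · subst h1
      exact ih u hu t' t ht' ht
    by_cases h2 : t' = t
    · subst h2
      exact Relation.ReflTransGen.single (adj_swap hrefl hsymm hu (by rw [hs, ht']; exact h))
    by_cases h3 : s = t
    · subst h3
      rw [Equiv.swap_self]
      exact Relation.ReflTransGen.refl
    have e1 := adj_swap hrefl hsymm hu (s := s) (t := t') (by rw [hs, ht']; exact h)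
    have e2 := ih (u ∘ Equiv.swap s t') (hu.comp _) s t (by simp [ht'])
      (by simp [Equiv.swap_apply_of_ne_of_ne (Ne.symm h3) (Ne.symm h2), ht])
    have e3 := adj_swap hrefl hsymm ((hu.comp (Equiv.swap s t')).comp (Equiv.swap s t))
      (s := t) (t := t') (by
        simp only [Function.comp, Equiv.swap_apply_right, Equiv.swap_apply_left,
          Equiv.swap_apply_of_ne_of_ne h1 h2, hs, ht']
        exact hsymm _ _ h)
    have e4 : ((u ∘ Equiv.swap s t') ∘ Equiv.swap s t) ∘ Equiv.swap t t' = u ∘ Equiv.swap s t := by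
      funext j
      simp only [Function.comp]
      congr 1
      simp only [Equiv.swap_apply_def]
      split_ifs <;> simp_all
    rw [e4] at e3
    exact (Relation.ReflTransGen.head e1 e2).tail e3

lemma rich_update {u : ι → W} (hu : Rich u) {s : ι} (hs : 5 ≤ #{j | u j = u s}) (v : W) :
    Rich (Function.update u s v) := by
  intro w
  have h1 : (({j | u j = w} : Finset ι).erase s) ⊆ ({j | Function.update u s v j = w} : Finset ι) := by
    intro j hj
    obtain ⟨h1, h2⟩ := mem_erase.1 hj
    simp only [mem_filter, mem_univ, true_and] at h2 ⊢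
    rw [Function.update_of_ne h1, h2]
  refine le_trans ?_ (card_le_card h1)
  by_cases h : u s = w
  · subst h
    have := pred_card_le_card_erase (s := ({j | u j = u s} : Finset ι)) (a := s)
    omega
  · rw [erase_eq_of_notMem (by simpa using h)]
    exact hu w

lemma conn_update (hrefl : ∀ a, nr a a) {u : ι → W} (hu : Rich u) {s : ι}
    (hs : 5 ≤ #{j | u j = u s}) {b : W} (hab : Relation.ReflTransGen nr (u s) b) :
    Relation.ReflTransGen (Adj nr) u (Function.update u s b) := by
  induction hab with
  | refl => rw [Function.update_eq_self]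
  | tail _ h ih =>
    refine ih.tail ⟨rich_update hu hs _, rich_update hu hs _, fun j => ?_⟩
    by_cases hj : j = s
    · subst hj
      simpa using h
    · simpa [Function.update_of_ne hj] using hrefl _

lemma conn_rich (hrefl : ∀ a, nr a a) (hsymm : ∀ a b, nr a b → nr b a)
    (hconn : ∀ a b, Relation.ReflTransGen nr a b) {v : ι → W} (hv : Rich v) :
    ∀ (n : ℕ) (u : ι → W), Rich u → #{j | u j ≠ v j} ≤ n → Relation.ReflTransGen (Adj nr) u v := by
  intro n
  induction n with
  | zero =>
    intro u _ h
    have : u = v := by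
      funext j
      by_contra hj
      have : 0 < #{j | u j ≠ v j} := card_pos.2 ⟨j, by simpa using hj⟩
      omega
    rw [this]
  | succ n ih =>
    intro u hu h
    by_cases huv : u = v
    · rw [huv]
    obtain ⟨s, hs⟩ := Function.ne_iff.1 huv
    by_cases h5 : 5 ≤ #{j | u j = u s}
    · refine (conn_update hrefl hu h5 (hconn _ (v s))).trans (ih _ (rich_update hu h5 _) ?_)
      have : ({j | Function.update u s (v s) j ≠ v j} : Finset ι) ⊆
          ({j | u j ≠ v j} : Finset ι).erase s := by
        intro j hj
        simp only [mem_filter, mem_univ, true_and, mem_erase] at hj ⊢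
        by_cases hjs : j = s
        · subst hjs
          simp at hj
        · exact ⟨hjs, by rwa [Function.update_of_ne hjs] at hj⟩
      have h2 := card_le_card this
      rw [card_erase_of_mem (by simpa using hs)] at h2
      omega
    · obtain ⟨t, ht1, ht2⟩ : ∃ t, v t = u s ∧ u t ≠ u s := by
        by_contra hcon
        push Not at hcon
        have : ({j | v j = u s} : Finset ι) ⊆ ({j | u j = u s} : Finset ι).erase s := by
          intro j hj
          simp only [mem_filter, mem_univ, true_and, mem_erase] at hj ⊢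
          refine ⟨?_, hcon j hj⟩
          rintro rfl
          exact hs hj.symm
        have h2 := card_le_card this
        rw [card_erase_of_mem (by simp)] at h2
        have := hv (u s)
        omega
      refine (conn_swap hrefl hsymm (hconn (u s) (u t)) u hu s t rfl rfl).trans
        (ih _ (hu.comp _) ?_)
      have : ({j | (u ∘ Equiv.swap s t) j ≠ v j} : Finset ι) ⊆
          ({j | u j ≠ v j} : Finset ι).erase t := by
        intro j hj
        simp only [mem_filter, mem_univ, true_and, mem_erase, Function.comp] at hj ⊢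
        by_cases hjt : j = t
        · subst hjt
          simp [ht1] at hj
        · refine ⟨hjt, ?_⟩
          by_cases hjs : j = s
          · subst hjs
            exact hs
          · rwa [Equiv.swap_apply_of_ne_of_ne hjs hjt] at hj
      have h2 := card_le_card this
      rw [card_erase_of_mem (by simp [ht1, ht2])] at h2
      omega

end Pool.Agent.H583Z.Rec
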