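import Pool.Agent.H583Z.Rec.Linear

set_option autoImplicit false
set_option linter.unusedSectionVars false

namespace Pool.Agent.H583Z.Rec

open Finset Topology Filter

def Sparse (E : Set ℤ) : Prop :=
  ∀ l : ℕ, 1 ≤ l → ∃ F : Finset ℤ, #F + 8 ≤ 8 * l ∧
    ∀ e ∈ E, e ∉ F → ∀ e' ∈ E, e' ∉ F → e < e' → e + 8 * l ≤ e'

lemma hitSlots_union {z : Odo} {E E' : Set ℤ} {k : ℕ} {t : ℤ} :
    hitSlots z (E ∪ E') k t = hitSlots z E k t ∪ hitSlots z E' k t := by
  ext j
  simp only [mem_union, mem_hitSlots, Set.mem_union]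
  constructor
  · rintro ⟨e, he | he, h⟩
    · exact Or.inl ⟨e, he, h⟩
    · exact Or.inr ⟨e, he, h⟩
  · rintro (⟨e, he, h⟩ | ⟨e, he, h⟩)
    · exact ⟨e, Or.inl he, h⟩
    · exact ⟨e, Or.inr he, h⟩

lemma card_hit_sep {z : Odo} {E : Set ℤ} {k : ℕ} {t : ℤ}
    (h : ∀ e ∈ E, ∀ e' ∈ E, e < e' → e + 8 * (len k : ℕ) ≤ e') :
    #(hitSlots z E k t) ≤ 4 ^ len k + 2 := by
  have : #(hitSlots z E k t) ≤ #(range (4 ^ len k + 2)) := by
    apply card_le_card_of_injOn (fun j : Fin (mm (len k)) => j.1 / 8)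
    · intro j _
      have := j.2
      unfold mm at this
      simp only [coe_range, Set.mem_Iio]
      omega
    · intro a ha b hb hab
      obtain ⟨e, he, h1⟩ := mem_hitSlots.1 ha
      obtain ⟨e', he', h2⟩ := mem_hitSlots.1 hb
      have hl := len_pos' k
      have b1 := bs_le z k e
      have b2 := lt_bs z k e
      have b3 := bs_le z k e'
      have b4 := lt_bs z k e'
      simp only at hab
      by_contra hne
      have hne' : a.1 ≠ b.1 := fun hh => hne (Fin.ext hh)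
      rcases lt_or_gt_of_ne hne' with c | c
      · have c1 : ((a.1 : ℕ) : ℤ) + 1 ≤ (b.1 : ℕ) := by exact_mod_cast c
        have c2 : ((b.1 : ℕ) : ℤ) ≤ (a.1 : ℕ) + 7 := by omega
        have := h e he e' he' (by nlinarith)
        nlinarith
      · have c1 : ((b.1 : ℕ) : ℤ) + 1 ≤ (a.1 : ℕ) := by exact_mod_cast c
        have c2 : ((a.1 : ℕ) : ℤ) ≤ (b.1 : ℕ) + 7 := by omega
        have := h e' he' e he (by nlinarith)
        nlinarith
  simpa using this

lemma Sparse.card_hit {E : Set ℤ} (hE : Sparse E) (z : Odo) (k : ℕ) (t : ℤ) :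
    #(hitSlots z E k t) + 6 ≤ 8 * len k + 4 ^ len k := by
  obtain ⟨F, hF, h⟩ := hE (len k) (len_pos k)
  have e : E = (E ∩ F) ∪ (E \ F) := (Set.inter_union_sdiff _ _).symm
  have h1 : #(hitSlots z (E ∩ F) k t) ≤ #(F.image (bs z k)) :=
    card_hitSlots_le _ (fun e he => mem_image_of_mem _ he.2)
  have h2 : #(hitSlots z (E \ F) k t) ≤ 4 ^ len k + 2 :=
    card_hit_sep (fun e he e' he' hh => h e he.1 he.2 e' he'.1 he'.2 hh)
  have h3 := card_image_le (s := F) (f := bs z k)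
  have h4 := card_union_le (hitSlots z (E ∩ F) k t) (hitSlots z (E \ F) k t)
  rw [← hitSlots_union, ← e] at h4
  omega

lemma eight_le (l : ℕ) : 8 * l ≤ 4 ^ l + 8 := by
  induction l with
  | zero => simp
  | succ l ih =>
    rcases Nat.lt_or_ge l 2 with h | h
    · interval_cases l <;> norm_num
    · have : 4 ^ 2 ≤ 4 ^ l := Nat.pow_le_pow_right (by norm_num) h
      rw [pow_succ]
      omega

lemma fill_sparse {E E' : Set ℤ} (hE : Sparse E) (hE' : Sparse E') (z : Odo) (k : ℕ) (s : ℤ)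
    (D : Set ℤ) (S : Finset ℤ) (hS : #S ≤ 4) (hD : ∀ e ∈ D, bs z k e ∈ S) :
    ∃ v : Fin (mm (len k)) → W k, ∀ w, 4 ≤ #{j | j ∉ hitSlots z (D ∪ (E ∪ E')) k s ∧ v j = w} := by
  apply fill_free (fun _ => Classical.arbitrary (W k))
  have h1 := card_le_mm k
  have h2 := hE.card_hit z k s
  have h3 := hE'.card_hit z k s
  have h4 := card_hitSlots_le (t := s) S hD
  have h5 := eight_le (len k)
  have h6 := card_union_le (hitSlots z D k s) (hitSlots z E k s ∪ hitSlots z E' k s)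
  have h7 := card_union_le (hitSlots z E k s) (hitSlots z E' k s)
  rw [hitSlots_union, hitSlots_union, Fintype.card_fin]
  omega

lemma free_two (p : XX) (K : ℕ) {E E' : Set ℤ} (hE : Sparse E) (hE' : Sparse E') (t : ℤ)
    (f : ℤ → A) : ∃ q : XX, Agree K p q ∧ ∀ n, (n = t ∨ n ∈ E ∨ n ∈ E') →
      (q.x n = p.x n ∨ q.x n = f n) ∧ ((K : ℤ) + len K ≤ |n| → q.x n = f n) := by
  classical
  obtain ⟨y1, g1, h1⟩ := ext_lemma p.compat p.good ({t} ∪ (E ∪ E')) 0 (y0 := f)
    (fun _ _ => trivial) (fun _ _ => True) (fun _ => trivial) (fun k _ s _ => by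
      obtain ⟨v, hv⟩ := fill_sparse hE hE' p.z k s {t} {bs p.z k t} (by simp) (by simp)
      exact ⟨v, fun _ _ => trivial, hv⟩)
  simp only [bs_zero, exists_eq_right] at h1
  let c : ℤ → Prop := fun s => ∃ e : ℤ, |e| ≤ K ∧ bs p.z K e = s
  obtain ⟨y, g, h⟩ := ext_lemma p.compat p.good ({e | |e| ≤ K ∨ e = t} ∪ (E ∪ E')) K
    (y0 := fun n => if c (bs p.z K n) then p.x n else y1 n)
    (fun e _ => by
      rw [val_ite c]
      split_ifs with hc
      · exact p.good K _ (St_bs _ _ _)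
      · exact g1 K _ (St_bs _ _ _))
    (fun _ _ => True) (fun _ => trivial) (fun k hk s _ => by
      obtain ⟨v, hv⟩ := fill_sparse hE hE' p.z k s {e | |e| ≤ K ∨ e = t}
        (insert (bs p.z k t) {bs p.z k 0 + (-1) * len k, bs p.z k 0, bs p.z k 0 + 1 * len k})
        card_le_four (by
          rintro e (he | rfl)
          · exact mem_insert_of_mem (bs_window _ hk he)
          · exact mem_insert_self _ _)
      exact ⟨v, fun _ _ => trivial, hv⟩)
  refine ⟨XX.mk' y p.z p.compat g, ⟨rfl, fun n hn => ?_⟩, fun n hn => ?_⟩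
  · show p.x n = y n
    rw [(h n).1 ⟨n, Or.inl (Or.inl hn), rfl⟩, if_pos ⟨n, hn, rfl⟩]
  · have hy : y n = if c (bs p.z K n) then p.x n else y1 n :=
      (h n).1 ⟨n, hn.imp (fun hh => Or.inr hh) id, rfl⟩
    have hy1 : y1 n = f n := (h1 n).1 hn
    show (y n = p.x n ∨ y n = f n) ∧ (_ → y n = f n)
    constructor
    · rw [hy]
      split_ifs
      · exact Or.inl rfl
      · exact Or.inr hy1
    · intro hh
      rw [hy, if_neg, hy1]
      rintro ⟨e, he, h⟩
      have := bs_le p.z K e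
      have := lt_bs p.z K e
      have := bs_le p.z K n
      have := lt_bs p.z K n
      obtain ⟨h1, h2⟩ := abs_le.1 he
      rcases le_abs.1 hh with h3 | h3 <;> linarith

lemma exists_ne_two (a b : A) : ∃ c, c ≠ a ∧ c ≠ b := by
  revert a b
  decide

theorem starDense_sparse (a b : ℕ → ℤ) (N0 : ℕ) (ha : Sparse (a '' {n | N0 < n}))
    (hb : Sparse (b '' {n | N0 < n})) (ha' : ∀ M : ℤ, ∃ N, ∀ n, N < n → M ≤ |a n|)
    (hb' : ∀ M : ℤ, ∃ N, ∀ n, N < n → M ≤ |b n|) :
    StarDense (fun n => {p : XX | p.x (a n) = p.x 0 ∨ p.x (b n) = p.x 0}) := by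
  intro U hU ⟨p, hp⟩
  obtain ⟨K, hK⟩ := exists_agree_subset (hU.mem_nhds hp)
  obtain ⟨N1, hN1⟩ := ha' (K + len K)
  obtain ⟨N2, hN2⟩ := hb' (K + len K)
  set N := N0 + N1 + N2 with hN
  let Z : Set XX := {q | ∀ n, N < n → q.x (a n) ≠ q.x 0 ∧ q.x (b n) ≠ q.x 0}
  refine ⟨N, U ∩ Z, ?_, Preperfect.open_inter ?_ hU, Set.inter_subset_left,
    fun n hn q hq hh => hh.elim (hq.2 n hn).1 (hq.2 n hn).2⟩
  · obtain ⟨q, h1, h2⟩ := free_two p K ha hb 0 (fun _ => fl (p.x 0))
    refine ⟨q, hK q h1, fun n hn => ?_⟩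
    rw [← h1.2 0 (by simp), (h2 (a n) (Or.inr (Or.inl ⟨n, by simp; omega, rfl⟩))).2
      (hN1 n (by omega)), (h2 (b n) (Or.inr (Or.inr ⟨n, by simp; omega, rfl⟩))).2
      (hN2 n (by omega))]
    exact ⟨fl_ne _, fl_ne _⟩
  · intro q hq
    rw [accPt_iff_nhds]
    intro V hV
    obtain ⟨L, hL⟩ := exists_agree_subset hV
    obtain ⟨c, c1, c2⟩ := exists_ne_two (q.x (L + len L)) (q.x 0)
    obtain ⟨q', h1, h2⟩ := free_two q L ha hb (L + len L) (fun _ => c)
    refine ⟨q', ⟨hL q' h1, fun n hn => ?_⟩, fun hh => c1 ?_⟩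
    · rw [← h1.2 0 (by simp)]
      constructor
      · rcases (h2 (a n) (Or.inr (Or.inl ⟨n, by simp; omega, rfl⟩))).1 with h | h <;> rw [h]
        · exact (hq n hn).1
        · exact c2
      · rcases (h2 (b n) (Or.inr (Or.inr ⟨n, by simp; omega, rfl⟩))).1 with h | h <;> rw [h]
        · exact (hq n hn).2
        · exact c2
    · rw [← (h2 _ (Or.inl rfl)).2 (le_abs_self _), hh]

lemma grow_of_diff (b : ℤ → ℤ) (h : ∃ N, ∀ n, N ≤ n → 1 ≤ b (n + 1) - b n) :
    ∃ N, ∀ n, N ≤ n → n - N ≤ b n := by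
  obtain ⟨N, hN⟩ := h
  have key : ∀ n, N ≤ n → b N + (n - N) ≤ b n := by
    intro n hn
    induction n, hn using Int.leInduction with
    | base => simp
    | succ n hn ih =>
      have := hN n hn
      linarith
  refine ⟨N + |b N|, fun n hn => ?_⟩
  have := key n (by linarith [abs_nonneg (b N)])
  have := neg_abs_le (b N)
  linarith

lemma poly_grow (P : Polynomial ℤ) (hP : 2 ≤ P.natDegree) (hl : 0 < P.leadingCoeff) :
    ∃ N : ℤ, ∀ n, N ≤ n → n - N ≤ P.eval (n + 1) - P.eval n := by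
  have h0 := P.fwdDiff_iter_degree_eq_factorial
  have key : ∀ j, j ≤ P.natDegree →
      ∃ N : ℤ, ∀ n, N ≤ n → 1 ≤ (fwdDiff (1 : ℤ))^[P.natDegree - j] P.eval n := by
    intro j
    induction j with
    | zero =>
      intro _
      refine ⟨0, fun n _ => ?_⟩
      rw [Nat.sub_zero, h0]
      have := Nat.factorial_pos P.natDegree
      simp only [Pi.smul_apply, Pi.natCast_apply, smul_eq_mul]
      have h2 : (1 : ℤ) ≤ (P.natDegree.factorial : ℕ) := by exact_mod_cast this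
      nlinarith
    | succ j ih =>
      intro hj
      have := ih (by omega)
      rw [show P.natDegree - j = (P.natDegree - (j + 1)) + 1 by omega,
        Function.iterate_succ_apply'] at this
      obtain ⟨N, hN⟩ := grow_of_diff _ this
      exact ⟨N + 1, fun n hn => by linarith [hN n (by linarith)]⟩
  have := key (P.natDegree - 2) (by omega)
  rw [show P.natDegree - (P.natDegree - 2) = 1 + 1 by omega, Function.iterate_succ_apply'] at this
  exact grow_of_diff _ this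

lemma sparse_of_grow (a : ℤ → ℤ) (h : ∃ N : ℤ, ∀ n, N ≤ n → n - N ≤ a (n + 1) - a n) :
    ∃ N0 : ℕ, ∀ N1, N0 ≤ N1 → Sparse ((fun n : ℕ => a n) '' {n | N1 < n}) ∧
      Sparse ((fun n : ℕ => - a n) '' {n | N1 < n}) ∧
      ∀ M : ℤ, ∃ N : ℕ, ∀ n : ℕ, N < n → M ≤ |a n| := by
  obtain ⟨N, hN⟩ := h
  have mono : ∀ m n : ℤ, N ≤ m → m < n → a m + (m - N) ≤ a n := by
    intro m n hm hmn
    induction n, hmn using Int.leInduction with
    | base => linarith [hN m hm]
    | succ n hn ih => linarith [hN n (by linarith)]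
  refine ⟨(N + 8).toNat, fun N1 hN1 => ?_⟩
  have sep : ∀ l : ℕ, 1 ≤ l → ∀ m n : ℕ, N1 < m → N1 < n → m ∉ Ioc N1 (N1 + (8 * l - 8)) →
      n ∉ Ioc N1 (N1 + (8 * l - 8)) → a m < a n → a m + 8 * l ≤ a n := by
    intro l hl m n hm hn hm' hn' hlt
    simp only [mem_Ioc, not_and, not_le] at hm' hn'
    have := hm' hm
    have := hn' hn
    rcases lt_trichotomy m n with c | c | c
    · have := mono m n (by omega) (by omega)
      omega
    · rw [c] at hlt
      omega
    · have := mono n m (by omega) (by omega)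
      omega
  refine ⟨fun l hl => ⟨(Ioc N1 (N1 + (8 * l - 8))).image (fun n : ℕ => a n), ?_, ?_⟩,
    fun l hl => ⟨(Ioc N1 (N1 + (8 * l - 8))).image (fun n : ℕ => - a n), ?_, ?_⟩, fun M => ?_⟩
  · have := card_image_le (s := Ioc N1 (N1 + (8 * l - 8))) (f := fun n : ℕ => a n)
    rw [Nat.card_Ioc] at this
    omega
  · rintro _ ⟨m, hm, rfl⟩ h1 _ ⟨n, hn, rfl⟩ h2 hlt
    exact sep l hl m n hm hn (fun hh => h1 (mem_image_of_mem _ hh))
      (fun hh => h2 (mem_image_of_mem _ hh)) hlt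
  · have := card_image_le (s := Ioc N1 (N1 + (8 * l - 8))) (f := fun n : ℕ => - a n)
    rw [Nat.card_Ioc] at this
    omega
  · rintro _ ⟨m, hm, rfl⟩ h1 _ ⟨n, hn, rfl⟩ h2 hlt
    have := sep l hl n m hn hm (fun hh => h2 (mem_image_of_mem _ hh))
      (fun hh => h1 (mem_image_of_mem _ hh)) (by simpa using hlt)
    simp only
    linarith
  · refine ⟨(|N| + |M| + |a N| + 1).toNat, fun n hn => ?_⟩
    have g := grow_of_diff a ⟨N + 1, fun n hn => by linarith [hN n (by linarith)]⟩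
    have h1 := le_abs_self N
    have h2 := le_abs_self M
    have h3 := neg_abs_le (a N)
    have h4 := abs_nonneg N
    have h5 := abs_nonneg M
    have h6 := abs_nonneg (a N)
    have h7 := mono N (n - 1) le_rfl
    have h8 := hN (n - 1) (by omega)
    have h9 := le_abs_self (a n)
    rw [sub_add_cancel] at h8
    by_cases c : N < n - 1
    · have := h7 c
      omega
    · have : N = n - 1 := by omega
      rw [← this] at h8
      omega

lemma poly_sparse (P : Polynomial ℤ) (hP : 2 ≤ P.natDegree) :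
    ∃ N0 : ℕ, ∀ N1, N0 ≤ N1 → Sparse ((fun n : ℕ => P.eval (n : ℤ)) '' {n | N1 < n}) ∧
      ∀ M : ℤ, ∃ N : ℕ, ∀ n : ℕ, N < n → M ≤ |P.eval (n : ℤ)| := by
  have h0 : P.leadingCoeff ≠ 0 := by
    rw [Ne, Polynomial.leadingCoeff_eq_zero]
    rintro rfl
    simp at hP
  rcases lt_or_gt_of_ne h0 with c | c
  · obtain ⟨N0, h⟩ := sparse_of_grow (fun n => (-P).eval n) (poly_grow (-P) (by simpa using hP) (by simpa using c))
    refine ⟨N0, fun N1 hN1 => ?_⟩
    have := (h N1 hN1).2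
    simpa using this
  · obtain ⟨N0, h⟩ := sparse_of_grow (fun n => P.eval n) (poly_grow P hP c)
    exact ⟨N0, fun N1 hN1 => ⟨(h N1 hN1).1, (h N1 hN1).2.2⟩⟩

theorem starDense_poly (P : Polynomial ℤ) (hP : 2 ≤ P.natDegree) :
    StarDense (fun n : ℕ => {p : XX | p.x (P.eval (n : ℤ)) = p.x 0 ∨
      p.x (P.eval (-(n : ℤ))) = p.x 0}) := by
  obtain ⟨N1, h1⟩ := poly_sparse P hP
  obtain ⟨N2, h2⟩ := poly_sparse (P.comp (-Polynomial.X)) (by
    rw [Polynomial.natDegree_comp]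
    simpa using hP)
  have a1 := h1 (max N1 N2) (le_max_left _ _)
  have a2 := h2 (max N1 N2) (le_max_right _ _)
  simp only [Polynomial.eval_comp, Polynomial.eval_neg, Polynomial.eval_X] at a2
  exact starDense_sparse _ _ _ a1.1 a2.1 a1.2 a2.2

lemma isClopen_ret (a b : ℤ) : IsClopen {p : XX | p.x a = p.x 0 ∨ p.x b = p.x 0} :=
  isClosed_of_discrete (f := fun p : XX => (p.x a, p.x b, p.x 0))
    ((continuous_x a).prodMk ((continuous_x b).prodMk (continuous_x 0)))
    (fun d => d.1 = d.2.2 ∨ d.2.1 = d.2.2)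

lemma conj_zpow {X Y : Type} [TopologicalSpace X] [TopologicalSpace Y] (h : X ≃ₜ Y) (S : Y ≃ₜ Y)
    (n : ℤ) (x : X) : ((h.trans (S.trans h.symm)) ^ n) x = h.symm ((S ^ n) (h x)) := by
  induction n using Int.induction_on generalizing x with
  | zero => simp
  | succ n ih =>
    rw [zpow_add_one, zpow_add_one, Homeomorph.mul_apply, ih]
    simp
  | pred n ih =>
    rw [zpow_sub_one, zpow_sub_one, Homeomorph.mul_apply, ih]
    simp [Homeomorph.inv_apply]

lemma dense_zorbit (p : XX) : Dense (Set.range fun n : ℤ => ((sh 1) ^ n) p) := by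
  refine (dense_orbit p).mono ?_
  rintro _ ⟨n, rfl⟩
  exact ⟨n, by simp only [sh_zpow]; rfl⟩

lemma eventually_ret {p : XX} {a : ℕ → ℤ}
    (h : Tendsto (fun i => ((sh 1) ^ (a i)) p) atTop (𝓝 p)) : ∀ᶠ i in atTop, p.x (a i) = p.x 0 := by
  have := ((continuous_x 0).tendsto p).comp h
  rw [nhds_discrete, tendsto_pure] at this
  refine this.mono fun i hi => ?_
  simp only [Function.comp, sh_zpow] at hi
  rw [← hi]
  show _ = (shFun (a i) p).x 0
  rw [shFun_x, zero_add]

theorem poly_main (P Q : Polynomial ℤ) (hP : 2 ≤ P.natDegree) (hQ : 2 ≤ Q.natDegree) :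
    ∃ (X : Type) (_ : MetricSpace X) (_ : CompactSpace X) (_ : Nonempty X) (T S : X ≃ₜ X),
      (∀ x : X, Dense (Set.range fun n : ℤ => (T ^ n) x)) ∧
      (∀ x : X, Dense (Set.range fun n : ℤ => (S ^ n) x)) ∧
      ∀ x : X, ¬ ∃ n : ℕ → ℤ, Tendsto (fun i => |n i|) atTop atTop ∧
        Tendsto (fun i => (T ^ (P.eval (n i))) x) atTop (𝓝 x) ∧
        Tendsto (fun i => (S ^ (Q.eval (n i))) x) atTop (𝓝 x) := by
  obtain ⟨h, N0, hh⟩ := star_match (fun n => isClopen_ret _ _) (fun n => isClopen_ret _ _)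
    (starDense_poly P hP) (starDense_poly Q hQ)
  letI : MetricSpace XX := TopologicalSpace.metrizableSpaceMetric XX
  refine ⟨XX, inferInstance, inferInstance, inferInstance, sh 1, h.trans ((sh 1).trans h.symm),
    dense_zorbit, fun x => ?_, ?_⟩
  · simp only [conj_zpow]
    exact h.symm.surjective.denseRange.comp (dense_zorbit (h x)) h.symm.continuous
  · rintro x ⟨n, h0, h1, h2⟩
    simp only [conj_zpow] at h2
    have h3 : Tendsto (fun i => ((sh 1) ^ (Q.eval (n i))) (h x)) atTop (𝓝 (h x)) := by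
      have := (h.continuous.tendsto x).comp h2
      simpa [Function.comp_def] using this
    obtain ⟨i, ⟨a1, a2⟩, a3⟩ := (((eventually_ret h1).and (eventually_ret h3)).and
      (h0.eventually_gt_atTop (N0 : ℤ))).exists
    apply hh x (n i).natAbs (by rw [← Int.natCast_natAbs] at a3; exact_mod_cast a3)
    simp only [Set.mem_ofPred_eq, Int.natCast_natAbs]
    rcases abs_choice (n i) with c | c <;> rw [c]
    · exact ⟨Or.inl a1, Or.inl a2⟩
    · rw [neg_neg]
      exact ⟨Or.inr a1, Or.inr a2⟩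

end Pool.Agent.H583Z.Rec
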