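import Pool.Agent.H583Z.Rec.Rigid
import Pool.Agent.H583Z.Rec.Sparse

set_option autoImplicit false

namespace Pool.Agent.H583Z.Rec.Rg

open Topology Filter Pool.Agent.H583Z.Rec

def XR : Type := {x : ℤ → Bool // XP x}

instance : TopologicalSpace XR := by unfold XR; infer_instance
instance : T2Space XR := by unfold XR; infer_instance
instance : TotallyDisconnectedSpace XR := by unfold XR; infer_instance
instance : SecondCountableTopology XR :=
  TopologicalSpace.Subtype.secondCountableTopology {x : ℤ → Bool | XP x}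

instance : CompactSpace XR := by
  have : IsClosed {x : ℤ → Bool | XP x} := by
    refine isClosed_forall fun t => isClosed_forall fun u => ?_
    by_cases h : Lang u
    · simp [h]
    · simp only [h, imp_false]
      exact (isClopen_occ t u).compl.isClosed
  exact isCompact_iff_compactSpace.1 this.isCompact

instance : Nonempty XR := by
  obtain ⟨w, hw⟩ := exists_mem 0
  obtain ⟨x, y, -, -, h, -⟩ := extend hw hw 0 false
  exact ⟨⟨x, h.xp⟩⟩

lemma cont_x (n : ℤ) : Continuous (fun x : XR => x.1 n) :=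
  (continuous_apply n).comp continuous_subtype_val

def sg (m : ℤ) (x : XR) : XR := ⟨fun n => x.1 (n + m), x.2.shift m⟩

@[simp] lemma sg_val (m : ℤ) (x : XR) (n : ℤ) : (sg m x).1 n = x.1 (n + m) := rfl

lemma sg_add (m m' : ℤ) (x : XR) : sg m (sg m' x) = sg (m + m') x :=
  Subtype.ext (funext fun n => by simp [add_assoc])

lemma sg_zero (x : XR) : sg 0 x = x := Subtype.ext (funext fun n => by simp)

lemma cont_sg (m : ℤ) : Continuous (sg m) :=
  Continuous.subtype_mk (continuous_pi fun _ => cont_x _) _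

abbrev YR : Type := XR × XR × Bool

lemma cont_sg_ite (m m' : ℤ) :
    Continuous (fun p : YR => sg (if p.2.2 = true then m else m') p.2.1) := by
  have : (fun p : YR => sg (if p.2.2 = true then m else m') p.2.1) =
      fun p : YR => if p.2.2 = true then sg m p.2.1 else sg m' p.2.1 := by
    funext p
    split_ifs <;> rfl
  rw [this]
  apply Continuous.if
  · intro a ha
    rw [(isClosed_of_discrete (f := fun p : YR => p.2.2) (by fun_prop)
      (fun b => b = true)).frontier_eq] at ha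
    exact absurd ha (Set.notMem_empty _)
  · exact (cont_sg _).comp (by fun_prop)
  · exact (cont_sg _).comp (by fun_prop)

lemma cont_not : Continuous (fun p : YR => !p.2.2) :=
  (continuous_of_discreteTopology (f := fun b : Bool => !b)).comp (by fun_prop)

def TR : YR ≃ₜ YR where
  toFun p := (sg 1 p.1, sg (if p.2.2 = true then 1 else 0) p.2.1, !p.2.2)
  invFun p := (sg (-1) p.1, sg (if p.2.2 = true then 0 else -1) p.2.1, !p.2.2)
  left_inv := by
    rintro ⟨x, y, _ | _⟩ <;> simp [sg_add, sg_zero]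
  right_inv := by
    rintro ⟨x, y, _ | _⟩ <;> simp [sg_add, sg_zero]
  continuous_toFun := ((cont_sg _).comp continuous_fst).prodMk ((cont_sg_ite _ _).prodMk cont_not)
  continuous_invFun := ((cont_sg _).comp continuous_fst).prodMk ((cont_sg_ite _ _).prodMk cont_not)

lemma TR_apply (p : YR) :
    TR p = (sg 1 p.1, sg (if p.2.2 = true then 1 else 0) p.2.1, !p.2.2) := rfl

lemma zpow_formula {Y Z : Type} [TopologicalSpace Y] (T : Y ≃ₜ Y) (f : ℤ → Y → Z)
    (h : ∀ m p, f m (T p) = f (m + 1) p) (m : ℤ) (p : Y) : f 0 ((T ^ m) p) = f m p := by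
  induction m using Int.induction_on generalizing p with
  | zero => rfl
  | succ n ih => rw [zpow_add_one, Homeomorph.mul_apply, ih, h]
  | pred n ih =>
    rw [zpow_sub_one, Homeomorph.mul_apply, ih]
    have := h (-(n : ℤ) - 1) (T⁻¹ p)
    rw [sub_add_cancel] at this
    rw [← this]
    congr 1
    exact T.apply_symm_apply p

lemma TR_fst (m : ℤ) (p : YR) : ((TR ^ m) p).1 = sg m p.1 := by
  have := zpow_formula TR (fun m p => sg m p.1) (fun m p => sg_add _ _ _) m p
  rwa [sg_zero] at this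

lemma TR_two (m : ℤ) (p : YR) : (TR ^ (2 * m)) p = (sg (2 * m) p.1, sg m p.2.1, p.2.2) := by
  have := zpow_formula (TR ^ (2 : ℤ)) (fun m p => (sg m p.2.1, p.2.2)) (fun m p => by
    rw [zpow_two, Homeomorph.mul_apply]
    obtain ⟨x, y, _ | _⟩ := p <;> simp [TR_apply, sg_add]) m p
  rw [← zpow_mul, sg_zero] at this
  exact Prod.ext (TR_fst _ _) this

def Ag (K : ℕ) (p q : YR) : Prop :=
  p.2.2 = q.2.2 ∧ ∀ n : ℤ, |n| ≤ K → p.1.1 n = q.1.1 n ∧ p.2.1.1 n = q.2.1.1 n

lemma Ag.mono {k K : ℕ} (h : k ≤ K) {p q : YR} (a : Ag K p q) : Ag k p q :=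
  ⟨a.1, fun n hn => a.2 n (le_trans hn (by exact_mod_cast h))⟩

lemma exists_ag_subset {p : YR} {U : Set YR} (hU : U ∈ 𝓝 p) : ∃ K, ∀ q, Ag K p q → q ∈ U := by
  have := exists_subset_nhds_of_compactSpace (V := fun K => {q | Ag K p q})
    (fun a b => ⟨max a b, fun q hq => Ag.mono (le_max_left _ _) hq,
      fun q hq => Ag.mono (le_max_right _ _) hq⟩)
    (fun K => by
      refine IsClosed.and (isClosed_eq continuous_const (by fun_prop)) ?_
      refine isClosed_forall fun n => ?_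
      exact (isClosed_of_discrete (f := fun q : YR => (q.1.1 n, q.2.1.1 n))
        (((cont_x n).comp continuous_fst).prodMk ((cont_x n).comp (by fun_prop)))
        (fun d => |n| ≤ K → p.1.1 n = d.1 ∧ p.2.1.1 n = d.2)).isClosed) (U := U) (by
      intro q hq
      have hq' : ∀ K, Ag K p q := Set.mem_iInter.1 hq
      have : p = q := Prod.ext (Subtype.ext (funext fun n => ((hq' n.natAbs).2 n (by simp)).1))
        (Prod.ext (Subtype.ext (funext fun n => ((hq' n.natAbs).2 n (by simp)).2)) (hq' 0).1)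
      rwa [← this])
  exact this

lemma ag_even (p q : YR) (hb : q.2.2 = p.2.2) (K : ℕ) : ∃ m : ℤ, Ag K q ((TR ^ (2 * m)) p) := by
  obtain ⟨m, h1, h2⟩ := joint p.1.2 p.2.1.2 (q.1.2 _ _ (occ_win _ (-K) (2 * K + 1)))
    (q.2.1.2 _ _ (occ_win _ (-K) (2 * K + 1))) (-K) (-K)
  rw [add_comm, ← occ_shift] at h1 h2
  refine ⟨m, ?_⟩
  rw [TR_two]
  refine ⟨hb, fun n hn => ?_⟩
  obtain ⟨n1, n2⟩ := abs_le.1 hn
  exact ⟨(occ_win _ _ _).agree h1 n n1 (by rw [length_win]; omega),
    (occ_win _ _ _).agree h2 n n1 (by rw [length_win]; omega)⟩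

lemma TR_minimal (p : YR) : Dense (Set.range fun n : ℤ => (TR ^ n) p) := by
  intro q
  rw [mem_closure_iff_nhds]
  intro U hU
  obtain ⟨K, hK⟩ := exists_ag_subset hU
  by_cases hb : q.2.2 = p.2.2
  · obtain ⟨m, hm⟩ := ag_even p q hb K
    exact ⟨_, hK _ hm, 2 * m, rfl⟩
  · obtain ⟨m, hm⟩ := ag_even (TR p) q (by
      rw [TR_apply]
      revert hb
      cases q.2.2 <;> cases p.2.2 <;> simp) K
    exact ⟨_, hK _ hm, 2 * m + 1, by simp only [zpow_add_one, Homeomorph.mul_apply]⟩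

def Ret (m : ℤ) (p : YR) : Prop :=
  ∀ i ∈ Finset.Icc (0 : ℤ) (ln 1 + 1), p.1.1 (i + m) = p.1.1 i ∧ p.2.1.1 (i + m) = p.2.1.1 i

lemma isClopen_Ret (m : ℤ) : IsClopen {p | Ret m p} := by
  have : {p | Ret m p} = ⋂ i ∈ Finset.Icc (0 : ℤ) (ln 1 + 1),
      {p : YR | p.1.1 (i + m) = p.1.1 i ∧ p.2.1.1 (i + m) = p.2.1.1 i} := by
    ext p
    simp [Ret]
  rw [this]
  refine isClopen_biInter_finset fun i _ => ?_
  exact isClosed_of_discrete
    (f := fun p : YR => (p.1.1 (i + m), p.1.1 i, p.2.1.1 (i + m), p.2.1.1 i))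
    (((cont_x _).comp continuous_fst).prodMk (((cont_x _).comp continuous_fst).prodMk
      (((cont_x _).comp (by fun_prop)).prodMk ((cont_x _).comp (by fun_prop)))))
    (fun d => d.1 = d.2.1 ∧ d.2.2.1 = d.2.2.2)

lemma exists_shift (p : YR) : ∃ d : ℤ, 0 ≤ d ∧ d ≤ 1 ∧ ∃ i ∈ Finset.Icc (0 : ℤ) (ln 1 + 1),
    i + d ∈ Finset.Icc (0 : ℤ) (ln 1 + 1) ∧ p.1.1 (i + d) ≠ p.2.1.1 i := by
  obtain ⟨i, i1, i2, hi⟩ := p.1.2.nonconst
  by_cases c : p.1.1 i = p.2.1.1 i
  · exact ⟨1, by omega, le_rfl, i, by simp only [Finset.mem_Icc]; omega,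
      by simp only [Finset.mem_Icc]; omega, by rw [← c]; exact hi.symm⟩
  · exact ⟨0, le_rfl, by omega, i, by simp only [Finset.mem_Icc]; omega,
      by simp only [Finset.mem_Icc]; omega, by rwa [add_zero]⟩

theorem starDense_Ret : StarDense (fun n : ℕ => {p : YR | Ret n p ∨ Ret (-n) p}) := by
  intro U hU ⟨p, hp⟩
  obtain ⟨K, hK⟩ := exists_ag_subset (hU.mem_nhds hp)
  obtain ⟨d, d0, d1, i, hi, hid, hne⟩ := exists_shift p
  obtain ⟨N, x, y, hxy, hN, hw⟩ := exists_pair (p.1.2.shift d) p.2.1.2 (K + ln 1 + 3)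
  let Z : Set YR := {q | Al (fun n => q.1.1 (n + d)) q.2.1.1 ∧
    (∀ n : ℤ, (N : ℤ) < |n| → q.1.1 (n + d) = q.2.1.1 n) ∧ q.1.1 (i + d) ≠ q.2.1.1 i}
  have mk : ∀ (q : YR) (L : ℕ) (x y : ℤ → Bool) (h : Al x y),
      (∀ n : ℤ, |n| ≤ (L + ln 1 + 3 : ℕ) → x n = q.1.1 (n + d) ∧ y n = q.2.1.1 n) →
      (∀ n : ℤ, (N : ℤ) < |n| → x n = y n) → q.1.1 (i + d) ≠ q.2.1.1 i →
      ∃ q' ∈ Z, Ag L q q' ∧ q'.2.1.1 = y := by
    intro q L x y h h1 h2 h3
    simp only [Finset.mem_Icc] at hi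
    refine ⟨(⟨fun n => x (n + -d), h.xp.shift _⟩, ⟨y, h.symm.xp⟩, q.2.2), ⟨?_, ?_, ?_⟩,
      ⟨rfl, fun n hn => ⟨?_, ?_⟩⟩, rfl⟩
    · simpa using h
    · simpa using h2
    · have := h1 i (by rw [abs_le]; constructor <;> omega)
      simp only [add_neg_cancel_right]
      rwa [this.1, this.2]
    · obtain ⟨n1, n2⟩ := abs_le.1 hn
      have := (h1 (n + -d) (by rw [abs_le]; constructor <;> omega)).1
      simp only [neg_add_cancel_right] at this
      exact this.symm
    · obtain ⟨n1, n2⟩ := abs_le.1 hn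
      exact (h1 n (by rw [abs_le]; constructor <;> omega)).2.symm
  refine ⟨N + ln 1 + 1, U ∩ Z, ?_, Preperfect.open_inter ?_ hU, Set.inter_subset_left, ?_⟩
  · obtain ⟨q, hq, ha, -⟩ := mk p K x y hxy hw hN hne
    exact ⟨q, hK q ha, hq⟩
  · intro q hq
    rw [accPt_iff_nhds]
    intro V hV
    obtain ⟨L, hL⟩ := exists_ag_subset hV
    obtain ⟨x', y', h1, h2, h3, h4⟩ := exists_near hq.1 hq.2.1 (L + ln 1 + 3)
    obtain ⟨q', hq', ha, e⟩ := mk q L x' y' h1 h4 h2 hq.2.2
    exact ⟨q', ⟨hL q' ha, hq'⟩, fun hh => h3 (by rw [← e, hh])⟩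
  · rintro n hn q ⟨-, -, h2, h3⟩ hq
    have key : ∀ m : ℤ, (N : ℤ) < |i + m| → ¬ Ret m q := by
      intro m hm hr
      apply h3
      rw [← (hr _ hid).1, ← (hr _ hi).2, ← h2 _ hm, add_right_comm]
    simp only [Finset.mem_Icc] at hi
    rcases hq with hq | hq
    · exact key _ (by rw [lt_abs]; omega) hq
    · exact key _ (by rw [lt_abs]; omega) hq

lemma eventually_Ret {p : YR} {a : ℕ → ℤ}
    (h1 : Tendsto (fun i => (TR ^ (a i)) p) atTop (𝓝 p))
    (h2 : Tendsto (fun i => (TR ^ (2 * a i)) p) atTop (𝓝 p)) : ∀ᶠ i in atTop, Ret (a i) p := by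
  unfold Ret
  rw [Filter.eventually_all_finset]
  intro j _
  have a1 := (((cont_x j).comp continuous_fst).tendsto p).comp h1
  have a2 := (((cont_x j).comp (f := fun p : YR => p.2.1) (by fun_prop)).tendsto p).comp h2
  rw [nhds_discrete, tendsto_pure] at a1 a2
  refine (a1.and a2).mono fun i hi => ?_
  simpa only [Function.comp, TR_fst, TR_two, sg_val] using hi

theorem double_main :
    ∃ (X : Type) (_ : MetricSpace X) (_ : CompactSpace X) (_ : Nonempty X) (T S : X ≃ₜ X),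
      (∀ x : X, Dense (Set.range fun n : ℤ => (T ^ n) x)) ∧
      (∀ x : X, Dense (Set.range fun n : ℤ => (S ^ n) x)) ∧
      ∀ x : X, ¬ ∃ n : ℕ → ℤ, Tendsto (fun i => |n i|) atTop atTop ∧
        Tendsto (fun i => (T ^ (n i)) x) atTop (𝓝 x) ∧
        Tendsto (fun i => (T ^ (2 * n i)) x) atTop (𝓝 x) ∧
        Tendsto (fun i => (S ^ ((n i) ^ 2)) x) atTop (𝓝 x) := by
  obtain ⟨h, N0, hh⟩ := star_match (fun n => (isClopen_Ret _).union (isClopen_Ret _))
    (fun n => isClopen_ret _ _) starDense_Ret (starDense_poly (Polynomial.X ^ 2) (by simp))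
  letI : MetricSpace YR := TopologicalSpace.metrizableSpaceMetric YR
  refine ⟨YR, inferInstance, inferInstance, inferInstance, TR, h.trans ((sh 1).trans h.symm),
    TR_minimal, fun x => ?_, ?_⟩
  · simp only [conj_zpow]
    exact h.symm.surjective.denseRange.comp (dense_zorbit (h x)) h.symm.continuous
  · rintro x ⟨n, h0, h1, h1', h2⟩
    simp only [conj_zpow] at h2
    have h3 : Tendsto (fun i => ((sh 1) ^ ((n i) ^ 2)) (h x)) atTop (𝓝 (h x)) := by
      have := (h.continuous.tendsto x).comp h2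
      simpa [Function.comp_def] using this
    obtain ⟨i, ⟨a1, a2⟩, a3⟩ := (((eventually_Ret h1 h1').and (eventually_ret h3)).and
      (h0.eventually_gt_atTop (N0 : ℤ))).exists
    apply hh x (n i).natAbs (by rw [← Int.natCast_natAbs] at a3; exact_mod_cast a3)
    simp only [Set.mem_ofPred_eq, Int.natCast_natAbs, Polynomial.eval_pow, Polynomial.eval_X,
      sq_abs]
    refine ⟨?_, Or.inl a2⟩
    rcases abs_choice (n i) with c | c <;> rw [c]
    · exact Or.inl a1
    · rw [neg_neg]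
      exact Or.inr a1

end Pool.Agent.H583Z.Rec.Rg
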