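import Pool.Agent.H583Z.Rec.Words

set_option autoImplicit false
set_option linter.unusedSectionVars false

namespace Pool.Agent.H583Z.Rec

open Finset

abbrev Odo : Type := (k : ℕ) → ZMod (len k)

def St (z : Odo) (k : ℕ) (t : ℤ) : Prop := (t : ZMod (len k)) + z k = 0

def Compat (z : Odo) : Prop := ∀ k t, St z (k + 1) t → St z k t

def val (k : ℕ) (x : ℤ → A) (t : ℤ) : Fin (len k) → A := fun i => x (t + (i : ℕ))

lemma slot_val (k : ℕ) (x : ℤ → A) (t : ℤ) (j : Fin (mm (len k))) :
    slot (m := mm (len k)) (val (k + 1) x t) j = val k x (t + (j : ℕ) * (len k : ℤ)) := by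
  funext i
  simp only [slot, val, finProdFinEquiv_apply_val]
  congr 1
  push_cast
  ring

lemma St_iff (z : Odo) (k : ℕ) (t : ℤ) : St z k t ↔ (len k : ℤ) ∣ t + ((z k).val : ℕ) := by
  rw [← ZMod.intCast_zmod_eq_zero_iff_dvd]
  unfold St
  push_cast
  rw [ZMod.natCast_zmod_val]

lemma St.dvd_sub {z : Odo} {k : ℕ} {t t' : ℤ} (h : St z k t) (h' : St z k t') :
    (len k : ℤ) ∣ t - t' := by
  have := _root_.dvd_sub ((St_iff _ _ _).1 h) ((St_iff _ _ _).1 h')
  simpa using this

lemma St.add {z : Odo} {k : ℕ} {t : ℤ} (h : St z k t) (j : ℤ) : St z k (t + j * len k) := by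
  rw [St_iff] at h ⊢
  have := dvd_add h (dvd_mul_left (len k : ℤ) j)
  rwa [add_right_comm] at this

def bs (z : Odo) (k : ℕ) (n : ℤ) : ℤ := n - (n + ((z k).val : ℕ)) % (len k : ℤ)

lemma len_pos' (k : ℕ) : (0 : ℤ) < len k := by exact_mod_cast len_pos k

lemma St_bs (z : Odo) (k : ℕ) (n : ℤ) : St z k (bs z k n) := by
  rw [St_iff]
  unfold bs
  have := Int.mul_ediv_add_emod (n + ((z k).val : ℕ)) (len k : ℤ)
  exact ⟨(n + ((z k).val : ℕ)) / (len k : ℤ), by linarith⟩

lemma bs_le (z : Odo) (k : ℕ) (n : ℤ) : bs z k n ≤ n := by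
  have := Int.emod_nonneg (n + ((z k).val : ℕ)) (len_pos' k).ne'
  unfold bs
  linarith

lemma lt_bs (z : Odo) (k : ℕ) (n : ℤ) : n < bs z k n + len k := by
  have := Int.emod_lt_of_pos (n + ((z k).val : ℕ)) (len_pos' k)
  unfold bs
  linarith

lemma St.eq_of_lt {z : Odo} {k : ℕ} {t t' : ℤ} (h : St z k t) (h' : St z k t')
    (h1 : t < t' + len k) (h2 : t' < t + len k) : t = t' := by
  obtain ⟨c, hc⟩ := h.dvd_sub h'
  have hp := len_pos' k
  have c1 : c < 1 := by nlinarith
  have c2 : -1 < c := by nlinarith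
  have : c = 0 := by omega
  rw [this] at hc
  linarith

lemma St.le_of_lt {z : Odo} {k : ℕ} {t t' : ℤ} (h : St z k t) (h' : St z k t')
    (h1 : t < t') : t + len k ≤ t' := by
  obtain ⟨c, hc⟩ := h'.dvd_sub h
  have hp := len_pos' k
  have c1 : 0 < c := by nlinarith
  nlinarith

lemma bs_eq {z : Odo} {k : ℕ} {t n : ℤ} (h : St z k t) (h1 : t ≤ n) (h2 : n < t + len k) :
    bs z k n = t :=
  (St_bs z k n).eq_of_lt h (by linarith [bs_le z k n]) (by linarith [lt_bs z k n])

lemma exists_slot {z : Odo} (hz : Compat z) {k : ℕ} {t : ℤ} (ht : St z (k + 1) t) {s : ℤ}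
    (hs : St z k s) (h1 : t ≤ s) (h2 : s < t + len (k + 1)) :
    ∃ j : Fin (mm (len k)), s = t + (j : ℕ) * (len k : ℤ) := by
  obtain ⟨c, hc⟩ := hs.dvd_sub (hz k t ht)
  have hp := len_pos' k
  rw [len_succ] at h2
  push_cast at h2
  have c0 : 0 ≤ c := by nlinarith
  have c1 : c < mm (len k) := by nlinarith
  refine ⟨⟨c.toNat, by omega⟩, ?_⟩
  simp only [Int.toNat_of_nonneg c0]
  linarith

lemma bs_slot {z : Odo} {k : ℕ} {t : ℤ} (ht : St z (k + 1) t) (j : Fin (mm (len k))) {i : ℤ}
    (hi : 0 ≤ i) (hi' : i < len k) : bs z (k + 1) (t + (j : ℕ) * (len k : ℤ) + i) = t := by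
  have hp := len_pos' k
  apply bs_eq ht
  · have : (0 : ℤ) ≤ (j : ℕ) * (len k : ℤ) := by positivity
    linarith
  · rw [len_succ]
    push_cast
    have : ((j : ℕ) : ℤ) + 1 ≤ mm (len k) := by exact_mod_cast j.2
    nlinarith

lemma bs_nested {z : Odo} (hz : Compat z) (k : ℕ) (n : ℤ) :
    bs z (k + 1) n ≤ bs z k n ∧ bs z k n + len k ≤ bs z (k + 1) n + len (k + 1) := by
  have a1 := St_bs z k n
  have a2 := hz k _ (St_bs z (k + 1) n)
  have a3 : St z k (bs z (k + 1) n + len (k + 1)) := by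
    have := a2.add (mm (len k))
    rw [len_succ]
    push_cast
    exact this
  constructor
  · by_contra h
    have := a1.le_of_lt a2 (not_le.1 h)
    linarith [lt_bs z k n, bs_le z (k + 1) n]
  · exact a1.le_of_lt a3 (by linarith [bs_le z k n, lt_bs z (k + 1) n])

lemma bs_mono {z : Odo} (hz : Compat z) {k l : ℕ} (h : k ≤ l) {e n : ℤ}
    (he : bs z k e = bs z k n) : bs z l e = bs z l n := by
  induction l, h using Nat.le_induction with
  | base => exact he
  | succ l _ ih =>
    obtain ⟨h1, h2⟩ := bs_nested hz l n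
    apply bs_eq (St_bs _ _ _)
    · linarith [bs_le z l e]
    · linarith [lt_bs z l e]

noncomputable def glue (z : Odo) (k : ℕ) (β : ℤ → W k) : ℤ → A := fun n =>
  (β (bs z k n)).1 ⟨(n - bs z k n).toNat, by
    have := bs_le z k n
    have := lt_bs z k n
    omega⟩

lemma val_glue {z : Odo} {k : ℕ} (β : ℤ → W k) {t : ℤ} (ht : St z k t) :
    val k (glue z k β) t = (β t).1 := by
  funext i
  have h : bs z k (t + (i : ℕ)) = t := bs_eq ht (by omega) (by have := i.2; omega)
  have key : ∀ (s : ℤ) (i' : Fin (len k)), s = t → i' = i → (β s).1 i' = (β t).1 i := by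
    rintro _ _ rfl rfl
    rfl
  apply key _ _ h
  apply Fin.ext
  simp only [h]
  omega

lemma eq_val (z : Odo) (k : ℕ) (n : ℤ) :
    ∃ i : Fin (len k), n = bs z k n + (i : ℕ) ∧ ∀ y : ℤ → A, y n = val k y (bs z k n) i := by
  have h1 := bs_le z k n
  have h2 := lt_bs z k n
  refine ⟨⟨(n - bs z k n).toNat, by omega⟩, by simp only; omega, fun y => ?_⟩
  simp only [val]
  congr 1
  omega

def AllG (z : Odo) (k : ℕ) (y : ℤ → A) : Prop := ∀ t, St z k t → G k (val k y t)

lemma AllG.down {z : Odo} (hz : Compat z) {k : ℕ} {y : ℤ → A} (h : AllG z (k + 1) y) :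
    AllG z k y := by
  intro t ht
  obtain ⟨j, hj⟩ := exists_slot hz (St_bs z (k + 1) t) ht (bs_le _ _ _) (lt_bs _ _ _)
  have := (h _ (St_bs z (k + 1) t)).1 j
  rw [slot_val, ← hj] at this
  exact this

lemma AllG.down_le {z : Odo} (hz : Compat z) {k l : ℕ} (hkl : k ≤ l) {y : ℤ → A}
    (h : AllG z l y) : AllG z k y := by
  induction l, hkl using Nat.le_induction with
  | base => exact h
  | succ l _ ih => exact ih (h.down hz)

lemma continuous_val (k : ℕ) (t : ℤ) : Continuous (fun y : ℤ → A => val k y t) :=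
  continuous_pi fun _ => continuous_apply _

lemma isClosed_AllG (z : Odo) (k : ℕ) : IsClosed {y | AllG z k y} := by
  have : {y | AllG z k y} = ⋂ t, ⋂ (_ : St z k t), (fun y : ℤ → A => val k y t) ⁻¹' {w | G k w} := by
    ext y
    simp [AllG]
  rw [this]
  exact isClosed_iInter fun t => isClosed_iInter fun _ =>
    (isClosed_discrete _).preimage (continuous_val k t)

/-- the slots of the level `k + 1` block at `t` which meet `E` -/
noncomputable def hitSlots (z : Odo) (E : Set ℤ) (k : ℕ) (t : ℤ) : Finset (Fin (mm (len k))) := by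
  classical
  exact {j | ∃ e ∈ E, bs z k e = t + (j : ℕ) * (len k : ℤ)}

lemma mem_hitSlots {z : Odo} {E : Set ℤ} {k : ℕ} {t : ℤ} {j : Fin (mm (len k))} :
    j ∈ hitSlots z E k t ↔ ∃ e ∈ E, bs z k e = t + (j : ℕ) * (len k : ℤ) := by
  simp [hitSlots]

theorem ext_lemma {z : Odo} (hz : Compat z) {x : ℤ → A} (hx : ∀ k, AllG z k x) (E : Set ℤ)
    (K : ℕ) {y0 : ℤ → A} (hy0 : ∀ e ∈ E, G K (val K y0 (bs z K e)))
    (r : A → A → Prop) (hr : ∀ a, r a (fl a))
    (hfill : ∀ k, K ≤ k → ∀ t, St z (k + 1) t → ∃ v : Fin (mm (len k)) → W k,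
      (∀ (j : Fin (mm (len k))) i, r (val k x (t + (j : ℕ) * (len k : ℤ)) i) ((v j).1 i)) ∧
      ∀ w, 4 ≤ #{j | j ∉ hitSlots z E k t ∧ v j = w}) :
    ∃ y : ℤ → A, (∀ k, AllG z k y) ∧ ∀ n, ((∃ e ∈ E, bs z K e = bs z K n) → y n = y0 n) ∧
      (¬ (∃ e ∈ E, bs z K e = bs z K n) → r (x n) (y n)) := by
  classical
  let P : (ℤ → A) → Prop := fun y => ∀ n, ((∃ e ∈ E, bs z K e = bs z K n) → y n = y0 n) ∧
      (¬ (∃ e ∈ E, bs z K e = bs z K n) → r (x n) (y n))
  have hP : IsClosed {y | P y} := by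
    have : {y | P y} = ⋂ n, (fun y : ℤ → A => y n) ⁻¹'
        {a | ((∃ e ∈ E, bs z K e = bs z K n) → a = y0 n) ∧
          (¬ (∃ e ∈ E, bs z K e = bs z K n) → r (x n) a)} := by
      ext y
      simp [P]
    rw [this]
    exact isClosed_iInter fun n => (isClosed_discrete _).preimage (continuous_apply n)
  let F : ℕ → Set (ℤ → A) := fun i => {y | AllG z (K + i) y} ∩ {y | P y}
  have hFc : ∀ i, IsClosed (F i) := fun i => (isClosed_AllG z _).inter hP
  have hFne : ∀ i, (F i).Nonempty := by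
    intro i
    induction i with
    | zero =>
      let β : ℤ → W K := fun t =>
        if h : ∃ e ∈ E, bs z K e = t then ⟨val K y0 t, by
          obtain ⟨e, he, rfl⟩ := h
          exact hy0 e he⟩
        else if h' : St z K t then flW ⟨val K x t, hx K t h'⟩ else Classical.arbitrary _
      refine ⟨glue z K β, fun t ht => ?_, fun n => ?_⟩
      · show G K (val K (glue z K β) t)
        rw [val_glue β ht]
        exact (β t).2
      · obtain ⟨i, -, hi⟩ := eq_val z K n
        rw [hi (glue z K β), val_glue β (St_bs _ _ _), hi y0, hi x]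
        constructor
        · intro h
          simp only [β, dif_pos h]
        · intro h
          simp only [β, dif_neg h, dif_pos (St_bs z K n)]
          exact hr _
    | succ i ih =>
      obtain ⟨y, hy, hPy⟩ := ih
      set k := K + i with hk
      have hf := hfill k (by omega)
      choose! v hv1 hv2 using hf
      let idx : ℤ → Fin (mm (len k)) := fun s =>
        ⟨((s - bs z (k + 1) s) / len k).toNat % mm (len k), Nat.mod_lt _ (mm_pos _)⟩
      have hidx : ∀ t, St z (k + 1) t → ∀ j : Fin (mm (len k)),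
          bs z (k + 1) (t + (j : ℕ) * (len k : ℤ)) = t ∧ idx (t + (j : ℕ) * (len k : ℤ)) = j := by
        intro t ht j
        have h1 := bs_slot ht j le_rfl (len_pos' k)
        rw [add_zero] at h1
        refine ⟨h1, Fin.ext ?_⟩
        simp only [idx, h1, add_sub_cancel_left]
        rw [Int.mul_ediv_cancel _ (len_pos' k).ne', Int.toNat_natCast, Nat.mod_eq_of_lt j.2]
      let β : ℤ → W k := fun s =>
        if h : ∃ e ∈ E, bs z k e = s then ⟨val k y s, by
          obtain ⟨e, -, rfl⟩ := h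
          exact hy _ (St_bs _ _ _)⟩
        else v (bs z (k + 1) s) (idx s)
      refine ⟨glue z k β, fun t ht => ?_, fun n => ?_⟩
      · show G (k + 1) (val (k + 1) (glue z k β) t)
        have ht : St z (k + 1) t := ht
        refine G_succ_of _ (fun j => β (t + (j : ℕ) * (len k : ℤ))) (fun j => ?_) (fun w => ?_)
        · rw [slot_val, val_glue β ((hz k t ht).add _)]
        · refine le_trans (hv2 t ht w) (card_le_card ?_)
          intro j hj
          simp only [mem_filter, mem_univ, true_and, mem_hitSlots] at hj ⊢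
          simp only [β, dif_neg hj.1, (hidx t ht j).1, (hidx t ht j).2, hj.2]
      · obtain ⟨i0, -, hi⟩ := eq_val z k n
        rw [hi (glue z k β), val_glue β (St_bs _ _ _)]
        by_cases h : ∃ e ∈ E, bs z k e = bs z k n
        · simp only [β, dif_pos h]
          rw [← hi y]
          exact hPy n
        · have h' : ¬ ∃ e ∈ E, bs z K e = bs z K n := fun ⟨e, he, hh⟩ =>
            h ⟨e, he, bs_mono hz (by omega) hh⟩
          refine ⟨fun hh => absurd hh h', fun _ => ?_⟩
          simp only [β, dif_neg h]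
          obtain ⟨h1, h2⟩ := bs_nested hz k n
          obtain ⟨j, hj⟩ := exists_slot hz (St_bs z (k + 1) n) (St_bs z k n) h1
            (by linarith [len_pos' k])
          have := hv1 _ (St_bs z (k + 1) n) j i0
          rw [hi x, hj, (hidx _ (St_bs z (k + 1) n) j).1, (hidx _ (St_bs z (k + 1) n) j).2]
          exact this
  obtain ⟨y, hy⟩ := IsCompact.nonempty_iInter_of_sequence_nonempty_isCompact_isClosed F
    (fun i y hy => ⟨AllG.down hz hy.1, hy.2⟩) hFne (hFc 0).isCompact hFc
  exact ⟨y, fun k => AllG.down_le hz (Nat.le_add_left k K) (Set.mem_iInter.1 hy k).1,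
    (Set.mem_iInter.1 hy 0).2⟩

end Pool.Agent.H583Z.Rec
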