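import Pool.Agent.H583Z.Rec.BackForth

set_option autoImplicit false
set_option linter.unusedSectionVars false

namespace Pool.Agent.H583Z.Rec

open Set Topology TopologicalSpace

/-- Points which lie in only finitely many `A n` are dense, in perfect amounts. -/
def StarDense {X : Type} [TopologicalSpace X] (A : ℕ → Set X) : Prop :=
  ∀ U : Set X, IsOpen U → U.Nonempty → ∃ (N : ℕ) (D : Set X), D.Nonempty ∧ Preperfect D ∧ D ⊆ U ∧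
    ∀ n, N < n → ∀ x ∈ D, x ∉ A n

def StarM {X Y : Type} [TopologicalSpace X] [TopologicalSpace Y] (A : ℕ → Set X) (B : ℕ → Set Y)
    (N0 : ℕ) (P : Set X) (Q : Set Y) : Prop :=
  (P = ∅ ∧ Q = ∅) ∨ ∃ (N : ℕ) (D : Set X) (E : Set Y), D.Nonempty ∧ Preperfect D ∧ D ⊆ P ∧
    (∀ n, N < n → ∀ x ∈ D, x ∉ A n) ∧ E.Nonempty ∧ Preperfect E ∧ E ⊆ Q ∧
    (∀ n, N < n → ∀ y ∈ E, y ∉ B n) ∧
    ∀ n, N0 < n → n ≤ N → ∀ x ∈ P, ∀ y ∈ Q, ¬ (x ∈ A n ∧ y ∈ B n)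

section
variable {X Y : Type} [TopologicalSpace X] [CompactSpace X] [T2Space X]
    [TotallyDisconnectedSpace X] [SecondCountableTopology X]
    [TopologicalSpace Y] [CompactSpace Y] [T2Space Y]
    [TotallyDisconnectedSpace Y] [SecondCountableTopology Y]

lemma StarM.symm {A : ℕ → Set X} {B : ℕ → Set Y} {N0 : ℕ} {P : Set X} {Q : Set Y}
    (h : StarM A B N0 P Q) : StarM B A N0 Q P := by
  rcases h with ⟨h1, h2⟩ | ⟨N, D, E, d1, d2, d3, d4, e1, e2, e3, e4, h⟩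
  · exact Or.inl ⟨h2, h1⟩
  · exact Or.inr ⟨N, E, D, e1, e2, e3, e4, d1, d2, d3, d4,
      fun n a b y hy x hx hh => h n a b x hx y hy ⟨hh.2, hh.1⟩⟩

lemma star_split_aux {A : ℕ → Set X} {B : ℕ → Set Y} (hB : ∀ n, IsClopen (B n))
    (hX : StarDense A) {N0 N : ℕ} {P P0 P1 D : Set X} {Q E : Set Y}
    (h0 : IsOpen P0) (h1 : IsOpen P1) (s0 : P0 ⊆ P) (s1 : P1 ⊆ P)
    (d1 : (P0 ∩ D).Nonempty) (d2 : Preperfect D) (d4 : ∀ n, N < n → ∀ x ∈ D, x ∉ A n)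
    (e1 : E.Nonempty) (e2 : Preperfect E) (e3 : E ⊆ Q) (e4 : ∀ n, N < n → ∀ y ∈ E, y ∉ B n)
    (h : ∀ n, N0 < n → n ≤ N → ∀ x ∈ P, ∀ y ∈ Q, ¬ (x ∈ A n ∧ y ∈ B n)) :
    ∃ W, IsClopen W ∧ StarM A B N0 P0 (Q \ W) ∧ StarM A B N0 P1 (Q ∩ W) := by
  rcases P1.eq_empty_or_nonempty with rfl | hne
  · refine ⟨∅, isClopen_empty, Or.inr ⟨N, P0 ∩ D, E, d1, d2.open_inter h0, inter_subset_left,
      fun n hn x hx => d4 n hn x hx.2, e1, e2, by simpa using e3, e4,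
      fun n a b x hx y hy => h n a b x (s0 hx) y hy.1⟩, Or.inl ⟨rfl, by simp⟩⟩
  obtain ⟨N1, D1, f1, f2, f3, f4⟩ := hX P1 h1 hne
  obtain ⟨y0, hy0⟩ := e1
  obtain ⟨y1, ⟨-, hy1⟩, hne1⟩ := accPt_iff_nhds.1 (e2 y0 hy0) univ Filter.univ_mem
  have hV : IsClopen (⋂ n ∈ Finset.Ioc N N1, (B n)ᶜ) :=
    isClopen_biInter_finset fun n _ => (hB n).compl
  obtain ⟨W, hW, hyW, hWsub⟩ := (isTopologicalBasis_isClopen (X := Y)).mem_nhds_iff.1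
    (isOpen_compl_singleton.mem_nhds (show y1 ∈ ({y0}ᶜ : Set Y) from hne1))
  have hW' : IsClopen W := hW
  set V := (⋂ n ∈ Finset.Ioc N N1, (B n)ᶜ) ∩ W with hVdef
  have hVc : IsClopen V := hV.inter hW'
  have hy1V : y1 ∈ V := ⟨mem_iInter₂.2 fun n hn => e4 n (Finset.mem_Ioc.1 hn).1 y1 hy1, hyW⟩
  have hy0V : y0 ∉ V := fun hh => hWsub hh.2 rfl
  refine ⟨V, hVc, Or.inr ⟨N, P0 ∩ D, Vᶜ ∩ E, d1, d2.open_inter h0, inter_subset_left,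
      fun n hn x hx => d4 n hn x hx.2, ⟨y0, hy0V, hy0⟩, e2.open_inter hVc.compl.isOpen,
      fun y hy => ⟨e3 hy.2, hy.1⟩, fun n hn y hy => e4 n hn y hy.2,
      fun n a b x hx y hy => h n a b x (s0 hx) y hy.1⟩,
    Or.inr ⟨max N N1, D1, V ∩ E, f1, f2, f3, fun n hn => f4 n (lt_of_le_of_lt (le_max_right _ _) hn),
      ⟨y1, hy1V, hy1⟩, e2.open_inter hVc.isOpen, fun y hy => ⟨e3 hy.2, hy.1⟩,
      fun n hn y hy => e4 n (lt_of_le_of_lt (le_max_left _ _) hn) y hy.2, ?_⟩⟩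
  intro n a b x hx y hy hh
  by_cases hn : n ≤ N
  · exact h n a hn x (s1 hx) y hy.1 hh
  · have : n ∈ Finset.Ioc N N1 := Finset.mem_Ioc.2 ⟨by omega, by omega⟩
    exact mem_iInter₂.1 hy.2.1 n this hh.2

lemma star_split {A : ℕ → Set X} {B : ℕ → Set Y} (hB : ∀ n, IsClopen (B n))
    (hX : StarDense A) {N0 : ℕ} (P : Set X) (Q : Set Y) (hP : IsClopen P)
    (hM : StarM A B N0 P Q) (C : Set X) (hC : IsClopen C) :
    ∃ D, IsClopen D ∧ StarM A B N0 (P ∩ C) (Q ∩ D) ∧ StarM A B N0 (P \ C) (Q \ D) := by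
  rcases hM with ⟨rfl, rfl⟩ | ⟨N, D, E, ⟨x, hx⟩, d2, d3, d4, e1, e2, e3, e4, h⟩
  · exact ⟨∅, isClopen_empty, Or.inl ⟨by simp, by simp⟩, Or.inl ⟨by simp, by simp⟩⟩
  by_cases hxC : x ∈ C
  · obtain ⟨W, hW, m0, m1⟩ := star_split_aux hB hX (hP.inter hC).isOpen (hP.diff hC).isOpen
      inter_subset_left sdiff_subset ⟨x, ⟨d3 hx, hxC⟩, hx⟩ d2 d4 e1 e2 e3 e4 h
    refine ⟨Wᶜ, hW.compl, m0, ?_⟩
    rwa [sdiff_compl]
  · obtain ⟨W, hW, m0, m1⟩ := star_split_aux hB hX (hP.diff hC).isOpen (hP.inter hC).isOpen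
      sdiff_subset inter_subset_left ⟨x, ⟨d3 hx, hxC⟩, hx⟩ d2 d4 e1 e2 e3 e4 h
    exact ⟨W, hW, m1, m0⟩

theorem star_match [Nonempty X] [Nonempty Y] {A : ℕ → Set X} {B : ℕ → Set Y}
    (hA : ∀ n, IsClopen (A n)) (hB : ∀ n, IsClopen (B n))
    (hX : StarDense A) (hY : StarDense B) :
    ∃ (h : X ≃ₜ Y) (N0 : ℕ), ∀ x n, N0 < n → ¬ (x ∈ A n ∧ h x ∈ B n) := by
  obtain ⟨N1, D, d1, d2, d3, d4⟩ := hX univ isOpen_univ univ_nonempty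
  obtain ⟨N2, E, e1, e2, e3, e4⟩ := hY univ isOpen_univ univ_nonempty
  obtain ⟨h, hh⟩ := backforth (StarM A B (max N1 N2))
    (Or.inr ⟨max N1 N2, D, E, d1, d2, d3, fun n hn => d4 n (lt_of_le_of_lt (le_max_left _ _) hn),
      e1, e2, e3, fun n hn => e4 n (lt_of_le_of_lt (le_max_right _ _) hn),
      fun n a b => absurd a (not_lt.2 b)⟩)
    (by
      rintro P Q (⟨rfl, rfl⟩ | ⟨N, D, E, d1, -, d3, -, e1, -, e3, -⟩)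
      · simp
      · exact ⟨fun _ => e1.mono e3, fun _ => d1.mono d3⟩)
    (fun P Q hP _ hM C hC => star_split hB hX P Q hP hM C hC)
    (fun P Q _ hQ hM D hD => by
      obtain ⟨C, hC, m0, m1⟩ := star_split hA hY Q P hQ hM.symm D hD
      exact ⟨C, hC, m0.symm, m1.symm⟩)
  refine ⟨h, max N1 N2, fun x n hn hx => ?_⟩
  obtain ⟨P, Q, hM, hxP, hPA, hxQ, -⟩ := hh x (A n) ((hA n).isOpen.mem_nhds hx.1) univ
    Filter.univ_mem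
  rcases hM with ⟨rfl, -⟩ | ⟨N, D, E, ⟨x', hx'⟩, -, d3, d4, -, -, -, -, h'⟩
  · exact hxP
  · by_cases hN : n ≤ N
    · exact h' n hn hN x hxP _ hxQ hx
    · exact d4 n (by omega) x' hx' (hPA (d3 hx'))

lemma rel_split {K : X → Y → Prop} (hK : IsClosed {p : X × Y | K p.1 p.2})
    (hO : ∀ P : Set X, IsClopen P → IsOpen {y | ∃ x ∈ P, K x y})
    (hB : ∀ (P : Set X) (Q : Set Y), IsClopen Q → (∀ x ∈ P, ∃ y ∈ Q, K x y) →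
      ∃ D, IsClopen D ∧ ∀ x ∈ P, (∃ y ∈ Q ∩ D, K x y) ∧ ∃ y ∈ Q \ D, K x y)
    (P : Set X) (Q : Set Y) (hP : IsClopen P) (hQ : IsClopen Q)
    (h1 : ∀ x ∈ P, ∃ y ∈ Q, K x y) (h2 : ∀ y ∈ Q, ∃ x ∈ P, K x y) (C : Set X) (hC : IsClopen C) :
    ∃ D, IsClopen D ∧ ((∀ x ∈ P ∩ C, ∃ y ∈ Q ∩ D, K x y) ∧ (∀ y ∈ Q ∩ D, ∃ x ∈ P ∩ C, K x y)) ∧
      ((∀ x ∈ P \ C, ∃ y ∈ Q \ D, K x y) ∧ (∀ y ∈ Q \ D, ∃ x ∈ P \ C, K x y)) := by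
  have hcl : ∀ P : Set X, IsClopen P → IsClopen {y | ∃ x ∈ P, K x y} := by
    intro P hP
    refine ⟨?_, hO P hP⟩
    have : {y | ∃ x ∈ P, K x y} = Prod.snd '' ((Prod.fst ⁻¹' P) ∩ {p : X × Y | K p.1 p.2}) := by
      ext y
      constructor
      · rintro ⟨x, hx, hk⟩
        exact ⟨(x, y), ⟨hx, hk⟩, rfl⟩
      · rintro ⟨⟨x, y'⟩, ⟨hx, hk⟩, rfl⟩
        exact ⟨x, hx, hk⟩
    rw [this]
    exact (((hP.isClosed.preimage continuous_fst).inter hK).isCompact.image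
      continuous_snd).isClosed
  obtain ⟨D, hD, hDP⟩ := hB P Q hQ h1
  set Q0 := {y | ∃ x ∈ P ∩ C, K x y}
  set Q1 := {y | ∃ x ∈ P \ C, K x y}
  have c0 : IsClopen Q0 := hcl _ (hP.inter hC)
  have c1 : IsClopen Q1 := hcl _ (hP.diff hC)
  refine ⟨(D ∩ Q0) ∪ Q1ᶜ, (hD.inter c0).union c1.compl, ⟨?_, ?_⟩, ?_, ?_⟩
  · intro x hx
    obtain ⟨y, hy, hk⟩ := (hDP x hx.1).1
    exact ⟨y, ⟨hy.1, Or.inl ⟨hy.2, x, hx, hk⟩⟩, hk⟩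
  · rintro y ⟨hy, hy' | hy'⟩
    · exact hy'.2
    · obtain ⟨x, hx, hk⟩ := h2 y hy
      by_cases hxC : x ∈ C
      · exact ⟨x, ⟨hx, hxC⟩, hk⟩
      · exact absurd ⟨x, ⟨hx, hxC⟩, hk⟩ hy'
  · intro x hx
    obtain ⟨y, hy, hk⟩ := (hDP x hx.1).2
    refine ⟨y, ⟨hy.1, ?_⟩, hk⟩
    rintro (h | h)
    · exact hy.2 h.1
    · exact h ⟨x, hx, hk⟩
  · rintro y ⟨-, hy'⟩
    by_contra hcon
    exact hy' (Or.inr hcon)

theorem rel_match {K : X → X → Prop} (hsymm : ∀ x y, K x y → K y x)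
    (hK : IsClosed {p : X × X | K p.1 p.2}) (htot : ∀ x, ∃ y, K x y)
    (hO : ∀ P : Set X, IsClopen P → IsOpen {y | ∃ x ∈ P, K x y})
    (hB : ∀ (P : Set X) (Q : Set X), IsClopen Q → (∀ x ∈ P, ∃ y ∈ Q, K x y) →
      ∃ D, IsClopen D ∧ ∀ x ∈ P, (∃ y ∈ Q ∩ D, K x y) ∧ ∃ y ∈ Q \ D, K x y) :
    ∃ h : X ≃ₜ X, ∀ x, K x (h x) := by
  obtain ⟨h, hh⟩ := backforth
    (fun P Q : Set X => (∀ x ∈ P, ∃ y ∈ Q, K x y) ∧ (∀ y ∈ Q, ∃ x ∈ P, K x y))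
    ⟨fun x _ => (htot x).imp fun y hy => ⟨trivial, hy⟩,
      fun y _ => (htot y).imp fun x hx => ⟨trivial, hsymm _ _ hx⟩⟩
    (fun P Q hM => ⟨fun ⟨x, hx⟩ => (hM.1 x hx).imp fun _ h => h.1,
      fun ⟨y, hy⟩ => (hM.2 y hy).imp fun _ h => h.1⟩)
    (fun P Q hP hQ hM C hC => rel_split hK hO hB P Q hP hQ hM.1 hM.2 C hC)
    (fun P Q hP hQ hM D hD => by
      obtain ⟨C, hC, ⟨a1, a2⟩, b1, b2⟩ := rel_split hK hO hB Q P hQ hP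
        (fun y hy => (hM.2 y hy).imp fun x hx => ⟨hx.1, hsymm _ _ hx.2⟩)
        (fun x hx => (hM.1 x hx).imp fun y hy => ⟨hy.1, hsymm _ _ hy.2⟩) D hD
      exact ⟨C, hC, ⟨fun x hx => (a2 x hx).imp fun y hy => ⟨hy.1, hsymm _ _ hy.2⟩,
        fun y hy => (a1 y hy).imp fun x hx => ⟨hx.1, hsymm _ _ hx.2⟩⟩,
        fun x hx => (b2 x hx).imp fun y hy => ⟨hy.1, hsymm _ _ hy.2⟩,
        fun y hy => (b1 y hy).imp fun x hx => ⟨hx.1, hsymm _ _ hx.2⟩⟩)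
  refine ⟨h, fun x => ?_⟩
  have : (x, h x) ∈ closure {p : X × X | K p.1 p.2} := by
    rw [mem_closure_iff_nhds]
    intro t ht
    obtain ⟨U, hU, V, hV, hUV⟩ := mem_nhds_prod_iff.1 ht
    obtain ⟨P, Q, hM, hxP, hPU, -, hQV⟩ := hh x U hU V hV
    obtain ⟨y, hy, hk⟩ := hM.1 x hxP
    exact ⟨(x, y), hUV ⟨hPU hxP, hQV hy⟩, hk⟩
  rwa [hK.closure_eq] at this

end

end Pool.Agent.H583Z.Rec
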