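import Pool.Agent.H583Z.Rec.Space
import Pool.Agent.H583Z.Rec.Match

set_option autoImplicit false
set_option linter.unusedSectionVars false

namespace Pool.Agent.H583Z.Rec

open Finset Topology

lemma card_hitSlots_le {z : Odo} {E : Set ℤ} {k : ℕ} {t : ℤ} (S : Finset ℤ)
    (h : ∀ e ∈ E, bs z k e ∈ S) : #(hitSlots z E k t) ≤ #S := by
  apply card_le_card_of_injOn (fun j : Fin (mm (len k)) => t + (j : ℕ) * (len k : ℤ))
  · intro j hj
    obtain ⟨e, he, hj⟩ := mem_hitSlots.1 hj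
    have := h e he
    rw [hj] at this
    exact this
  · intro a _ b _ hab
    have := mul_right_cancel₀ (len_pos' k).ne' (add_left_cancel hab)
    exact Fin.ext (by exact_mod_cast this)

lemma bs_window (z : Odo) {K k : ℕ} (h : K ≤ k) {e : ℤ} (he : |e| ≤ K) :
    bs z k e ∈ ({bs z k 0 + (-1) * len k, bs z k 0, bs z k 0 + 1 * len k} : Finset ℤ) := by
  have s0 := St_bs z k 0
  have b1 := bs_le z k 0
  have b2 := lt_bs z k 0
  have hK : (k : ℤ) < len k := by exact_mod_cast lt_len k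
  have hK' : (K : ℤ) ≤ k := by exact_mod_cast h
  obtain ⟨h1, h2⟩ := abs_le.1 he
  simp only [mem_insert, mem_singleton]
  by_cases c1 : e < bs z k 0
  · exact Or.inl (bs_eq (s0.add (-1)) (by linarith) (by linarith))
  · by_cases c2 : e < bs z k 0 + len k
    · exact Or.inr (Or.inl (bs_eq s0 (by linarith) c2))
    · exact Or.inr (Or.inr (bs_eq (s0.add 1) (by linarith) (by linarith)))

lemma bs_zero (z : Odo) (n : ℤ) : bs z 0 n = n := by
  have h1 := bs_le z 0 n
  have h2 := lt_bs z 0 n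
  simp only [len, Nat.cast_one] at h2
  omega

lemma fill_near_x (p : XX) (k : ℕ) {t : ℤ} (ht : St p.z (k + 1) t)
    (J : Finset (Fin (mm (len k)))) (hJ : #J ≤ 4) :
    ∃ v : Fin (mm (len k)) → W k,
      (∀ (j : Fin (mm (len k))) i, (v j).1 i ≠ val k p.x (t + (j : ℕ) * (len k : ℤ)) i) ∧
      ∀ w, 4 ≤ #{j | j ∉ J ∧ v j = w} := by
  obtain ⟨v, h1, h2⟩ := fill_near (nrW_refl k) (nrW_conn k)
    (rich_flW (rich_slots ⟨_, p.good (k + 1) t ht⟩)) J hJ (by
      have := card_le_mm k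
      simp only [Fintype.card_fin]
      omega)
  refine ⟨v, fun j i => ?_, h2⟩
  have := ne_of_nrA (h1 j i)
  rw [← slot_val]
  exact this

lemma fl_ne (a : A) : fl a ≠ a := ne_of_nrA (Or.inl rfl)

/-- splice two functions along whole blocks -/
lemma val_ite {z : Odo} {K : ℕ} (c : ℤ → Prop) [DecidablePred c] (y0 y1 : ℤ → A) (e : ℤ) :
    val K (fun n => if c (bs z K n) then y0 n else y1 n) (bs z K e) =
      if c (bs z K e) then val K y0 (bs z K e) else val K y1 (bs z K e) := by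
  funext i
  have h : bs z K (bs z K e + (i : ℕ)) = bs z K e :=
    bs_eq (St_bs _ _ _) (by omega) (by have := i.2; omega)
  simp only [val, h]
  split_ifs <;> rfl

lemma near_two (p : XX) (K : ℕ) (y0 : ℤ → A)
    (hy0 : ∀ e : ℤ, |e| ≤ K → G K (val K y0 (bs p.z K e))) (t : ℤ)
    (ht : (K : ℤ) + len K ≤ |t|) (a : A) :
    ∃ q : XX, q.z = p.z ∧ q.x t = a ∧ ∀ n,
      ((∃ e : ℤ, |e| ≤ K ∧ bs p.z K e = bs p.z K n) → q.x n = y0 n) ∧
      (¬ (∃ e : ℤ, |e| ≤ K ∧ bs p.z K e = bs p.z K n) → n ≠ t → q.x n ≠ p.x n) := by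
  classical
  obtain ⟨y1, g1, h1⟩ := ext_lemma p.compat p.good {t} 0 (y0 := fun _ => a)
    (fun _ _ => trivial) (fun a b => b ≠ a) fl_ne (fun k _ s hs =>
      fill_near_x p k hs _ (le_trans (card_hitSlots_le {bs p.z k t} (by simp)) (by simp)))
  simp only [bs_zero, Set.mem_singleton_iff, exists_eq_left] at h1
  have hnt : ¬ ∃ e : ℤ, |e| ≤ K ∧ bs p.z K e = bs p.z K t := by
    rintro ⟨e, he, h⟩
    have := bs_le p.z K e
    have := lt_bs p.z K e
    have := bs_le p.z K t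
    have := lt_bs p.z K t
    obtain ⟨h1, h2⟩ := abs_le.1 he
    rcases le_abs.1 ht with h3 | h3 <;> linarith
  let c : ℤ → Prop := fun s => ∃ e : ℤ, |e| ≤ K ∧ bs p.z K e = s
  obtain ⟨y, g, h⟩ := ext_lemma p.compat p.good {e | |e| ≤ K ∨ e = t} K
    (y0 := fun n => if c (bs p.z K n) then y0 n else y1 n)
    (fun e he => by
      rw [val_ite c]
      split_ifs with hc
      · obtain ⟨e', he', hh⟩ := hc
        rw [← hh]
        exact hy0 e' he'
      · exact g1 K _ (St_bs _ _ _))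
    (fun a b => b ≠ a) fl_ne (fun k hk s hs =>
      fill_near_x p k hs _ (le_trans (card_hitSlots_le
        (insert (bs p.z k t) {bs p.z k 0 + (-1) * len k, bs p.z k 0, bs p.z k 0 + 1 * len k})
        (by
          rintro e (he | rfl)
          · exact mem_insert_of_mem (bs_window _ hk he)
          · exact mem_insert_self _ _)) card_le_four))
  refine ⟨XX.mk' y p.z p.compat g, rfl, ?_, fun n => ⟨fun hn => ?_, fun hn hnt' => ?_⟩⟩
  · show y t = a
    rw [(h t).1 ⟨t, Or.inr rfl, rfl⟩, if_neg hnt]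
    exact (h1 t).1 rfl
  · show y n = y0 n
    obtain ⟨e, he, hh⟩ := hn
    rw [(h n).1 ⟨e, Or.inl he, hh⟩, if_pos ⟨e, he, hh⟩]
  · show y n ≠ p.x n
    by_cases hc : ∃ e ∈ {e : ℤ | |e| ≤ K ∨ e = t}, bs p.z K e = bs p.z K n
    · rw [(h n).1 hc, if_neg hn]
      exact (h1 n).2 (Ne.symm hnt')
    · exact (h n).2 hc

def Krel (p q : XX) : Prop := p.z = q.z ∧ p.x 0 = q.x 0 ∧ ∀ n, n ≠ 0 → q.x n ≠ p.x n

lemma Krel.symm {p q : XX} (h : Krel p q) : Krel q p :=
  ⟨h.1.symm, h.2.1.symm, fun n hn => (h.2.2 n hn).symm⟩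

lemma isClosed_Krel : IsClosed {p : XX × XX | Krel p.1 p.2} := by
  refine IsClosed.and ?_ (IsClosed.and ?_ ?_)
  · simp only [funext_iff]
    exact isClosed_forall fun k => isClosed_eq ((continuous_z k).comp continuous_fst)
      ((continuous_z k).comp continuous_snd)
  · exact isClosed_eq ((continuous_x 0).comp continuous_fst) ((continuous_x 0).comp continuous_snd)
  · exact isClosed_forall fun n => (isClosed_of_discrete
      (f := fun p : XX × XX => (p.1.x n, p.2.x n))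
      (((continuous_x n).comp continuous_fst).prodMk ((continuous_x n).comp continuous_snd))
      (fun d => n ≠ 0 → d.2 ≠ d.1)).isClosed

lemma Krel_total (p : XX) : ∃ q, Krel p q := by
  obtain ⟨q, h1, h2, h3⟩ := near_two p 0 p.x (fun _ _ => trivial) 1 (by simp [len]) (fl (p.x 1))
  simp only [bs_zero, Nat.cast_zero, abs_nonpos_iff, exists_eq_left] at h3
  refine ⟨q, h1.symm, ((h3 0).1 rfl).symm, fun n hn => ?_⟩
  by_cases h : n = 1
  · rw [h, h2]
    exact fl_ne _
  · exact (h3 n).2 (Ne.symm hn) h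

lemma bs_congr {z z' : Odo} {K : ℕ} (h : z K = z' K) (n : ℤ) : bs z K n = bs z' K n := by
  unfold bs
  rw [h]

lemma partner {p p0 q0 : XX} (h : Krel p0 q0) (K : ℕ) (hp : Agree (K + len K) p0 p) (t : ℤ)
    (ht : (K : ℤ) + len K ≤ |t|) (a : A) (ha : a ≠ p.x t) :
    ∃ q, Krel p q ∧ Agree K q0 q ∧ q.x t = a := by
  have hz : q0.z K = p.z K := by
    rw [← h.1]
    exact (hp.mono (Nat.le_add_right _ _)).1
  obtain ⟨q, h1, h2, h3⟩ := near_two p K q0.x (fun e _ => by
    rw [← bs_congr hz]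
    exact q0.good K _ (St_bs _ _ _)) t ht a
  refine ⟨q, ⟨h1.symm, ?_, fun n hn => ?_⟩, ⟨by rw [h1, hz], fun n hn => ?_⟩, h2⟩
  · rw [(h3 0).1 ⟨0, by simp, rfl⟩, ← h.2.1]
    exact (hp.2 0 (by simp only [abs_zero]; positivity)).symm
  · by_cases hc : ∃ e : ℤ, |e| ≤ K ∧ bs p.z K e = bs p.z K n
    · rw [(h3 n).1 hc, ← hp.2 n]
      · exact h.2.2 n hn
      · obtain ⟨e, he, hh⟩ := hc
        have := bs_le p.z K e
        have := lt_bs p.z K e
        have := bs_le p.z K n
        have := lt_bs p.z K n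
        obtain ⟨h1, h2⟩ := abs_le.1 he
        push_cast
        rw [abs_le]
        constructor <;> linarith
    · by_cases hnt : n = t
      · rw [hnt, h2]
        exact ha
      · exact (h3 n).2 hc hnt
  · exact ((h3 n).1 ⟨n, hn, rfl⟩).symm

theorem exists_homeo_Krel : ∃ h : XX ≃ₜ XX, ∀ p, Krel p (h p) := by
  refine rel_match (fun _ _ h => h.symm) isClosed_Krel Krel_total ?_ ?_
  · intro P hP
    rw [isOpen_iff_mem_nhds]
    rintro y ⟨x, hx, hk⟩
    obtain ⟨K, hK⟩ := exists_agree_subset (hP.isOpen.mem_nhds hx)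
    refine Filter.mem_of_superset
      ((isClopen_agree (K + len K) y).isOpen.mem_nhds (Agree.refl _ _)) ?_
    intro y' hy'
    obtain ⟨q, h1, h2, -⟩ := partner hk.symm K hy' ((K : ℤ) + len K) (le_abs_self _) _ (fl_ne _)
    exact ⟨q, hK q h2, h1.symm⟩
  · intro P Q hQ h
    obtain ⟨K, hK⟩ := exists_agree_clopen hQ
    refine ⟨{y | (y.x ((K : ℤ) + len K)).1 = true},
      isClosed_of_discrete (continuous_x _) (fun d => d.1 = true), fun x hx => ?_⟩
    obtain ⟨y, hy, hk⟩ := h x hx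
    constructor
    · obtain ⟨q, h1, h2, h3⟩ := partner hk K (Agree.refl _ _) ((K : ℤ) + len K) (le_abs_self _)
        (true, !(x.x ((K : ℤ) + len K)).2) (fun hh => by simpa using congrArg Prod.snd hh)
      exact ⟨q, ⟨hK y hy q h2, by simp [h3]⟩, h1⟩
    · obtain ⟨q, h1, h2, h3⟩ := partner hk K (Agree.refl _ _) ((K : ℤ) + len K) (le_abs_self _)
        (false, !(x.x ((K : ℤ) + len K)).2) (fun hh => by simpa using congrArg Prod.snd hh)
      exact ⟨q, ⟨hK y hy q h2, by simp [h3]⟩, h1⟩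

lemma conj_iter {X Y : Type} [TopologicalSpace X] [TopologicalSpace Y] (h : X ≃ₜ Y) (S : Y ≃ₜ Y)
    (n : ℕ) (x : X) : (h.trans (S.trans h.symm))^[n] x = h.symm (S^[n] (h x)) := by
  induction n with
  | zero => simp
  | succ n ih =>
    rw [Function.iterate_succ_apply', Function.iterate_succ_apply', ih]
    simp

theorem linear_main :
    ∃ (X : Type) (_ : MetricSpace X) (_ : CompactSpace X) (_ : Nonempty X) (T S : X ≃ₜ X),
      (∀ x : X, Dense (Set.range (fun n : ℕ => (⇑T)^[n] x))) ∧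
      (∀ x : X, Dense (Set.range (fun n : ℕ => (⇑S)^[n] x))) ∧
      ∀ x : X, ¬ (∀ ε : ℝ, 0 < ε →
        ∃ n : ℕ, 0 < n ∧ dist ((⇑T)^[n] x) x < ε ∧ dist ((⇑S)^[n] x) x < ε) := by
  obtain ⟨h, hh⟩ := exists_homeo_Krel
  letI : MetricSpace XX := TopologicalSpace.metrizableSpaceMetric XX
  refine ⟨XX, inferInstance, inferInstance, inferInstance, sh 1, h.trans ((sh 1).trans h.symm),
    fun x => ?_, fun x => ?_, fun x hx => ?_⟩
  · simp only [sh_iter]
    exact dense_orbit x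
  · simp only [conj_iter, sh_iter]
    exact h.symm.surjective.denseRange.comp (dense_orbit (h x)) h.symm.continuous
  · have hU : IsOpen {p : XX | p.x 0 = x.x 0 ∧ (h p).x 0 = (h x).x 0} :=
      (isClosed_of_discrete (f := fun p : XX => (p.x 0, (h p).x 0))
        ((continuous_x 0).prodMk ((continuous_x 0).comp h.continuous))
        (fun d => d.1 = x.x 0 ∧ d.2 = (h x).x 0)).isOpen
    obtain ⟨ε, hε, hb⟩ := Metric.isOpen_iff.1 hU x ⟨rfl, rfl⟩
    obtain ⟨n, hn, h1, h2⟩ := hx ε hε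
    have a1 := (hb h1).1
    have a2 := (hb h2).2
    rw [sh_iter] at a1
    rw [conj_iter, sh_iter, Homeomorph.apply_symm_apply] at a2
    simp only [shFun_x, zero_add] at a1 a2
    exact (hh x).2.2 n (by omega) (by rw [a1, a2, (hh x).2.1])

end Pool.Agent.H583Z.Rec
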