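import Mathlib

set_option autoImplicit false

namespace Pool.Agent.H583Z.Rec.Rg

open Topology

/-- the word `w` occurs in `x` at position `t` -/
def Occ (x : ℤ → Bool) : ℤ → List Bool → Prop
  | _, [] => True
  | t, a :: w => x t = a ∧ Occ x (t + 1) w

lemma occ_append {x : ℤ → Bool} {u v : List Bool} {t : ℤ} :
    Occ x t (u ++ v) ↔ Occ x t u ∧ Occ x (t + u.length) v := by
  induction u generalizing t with
  | nil => simp [Occ]
  | cons a u ih =>
    simp only [List.cons_append, Occ, ih, List.length_cons, and_assoc]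
    push_cast
    rw [show t + 1 + (u.length : ℤ) = t + (u.length + 1) by ring]

lemma Occ.congr {x y : ℤ → Bool} {w : List Bool} {t : ℤ} (h : Occ x t w)
    (e : ∀ n, t ≤ n → n < t + w.length → y n = x n) : Occ y t w := by
  induction w generalizing t with
  | nil => trivial
  | cons a w ih =>
    simp only [List.length_cons] at e
    exact ⟨(e t le_rfl (by omega)).trans h.1, ih h.2 fun n h1 h2 => e n (by omega) (by omega)⟩

lemma Occ.agree {x y : ℤ → Bool} {w : List Bool} {t : ℤ} (h : Occ x t w) (h' : Occ y t w) :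
    ∀ n, t ≤ n → n < t + w.length → x n = y n := by
  induction w generalizing t with
  | nil => intro n h1 h2; simp at h2; omega
  | cons a w ih =>
    intro n h1 h2
    simp only [List.length_cons] at h2
    by_cases c : n = t
    · rw [c, h.1, h'.1]
    · exact ih h.2 h'.2 n (by omega) (by omega)

lemma exists_occ (w : List Bool) (t : ℤ) : ∃ x, Occ x t w := by
  induction w generalizing t with
  | nil => exact ⟨fun _ => false, trivial⟩
  | cons a w ih =>
    obtain ⟨x, hx⟩ := ih (t + 1)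
    refine ⟨Function.update x t a, by simp, hx.congr fun n h1 _ => ?_⟩
    rw [Function.update_of_ne (by omega)]

lemma occ_shift {x : ℤ → Bool} {w : List Bool} {t m : ℤ} :
    Occ (fun n => x (n + m)) t w ↔ Occ x (t + m) w := by
  induction w generalizing t with
  | nil => simp [Occ]
  | cons a w ih =>
    simp only [Occ, ih]
    rw [show t + 1 + m = t + m + 1 by ring]

def win (x : ℤ → Bool) : ℤ → ℕ → List Bool
  | _, 0 => []
  | t, m + 1 => x t :: win x (t + 1) m

lemma occ_win (x : ℤ → Bool) (t : ℤ) (m : ℕ) : Occ x t (win x t m) := by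
  induction m generalizing t with
  | zero => trivial
  | succ m ih => exact ⟨rfl, ih _⟩

@[simp] lemma length_win (x : ℤ → Bool) (t : ℤ) (m : ℕ) : (win x t m).length = m := by
  induction m generalizing t with
  | zero => rfl
  | succ m ih => simp [win, ih]

lemma Occ.prefix_of {x : ℤ → Bool} {u w : List Bool} {t : ℤ} (h : Occ x t w) (h' : Occ x t u)
    (l : u.length ≤ w.length) : u <+: w := by
  induction u generalizing t w with
  | nil => exact List.nil_prefix
  | cons a u ih =>
    cases w with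
    | nil => simp at l
    | cons b w =>
      rw [List.cons_prefix_cons]
      exact ⟨h'.1.symm.trans h.1, ih h.2 h'.2 (by simpa using l)⟩

lemma Occ.infix_of {x : ℤ → Bool} {u w : List Bool} {t a : ℤ} (h : Occ x t w) (h' : Occ x a u)
    (l1 : t ≤ a) (l2 : a + u.length ≤ t + w.length) : u <:+: w := by
  induction w generalizing t with
  | nil =>
    have : u = [] := List.length_eq_zero_iff.1 (by simp at l2; omega)
    rw [this]
  | cons b w ih =>
    by_cases c : a = t
    · subst c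
      exact (h.prefix_of h' (by omega)).isInfix
    · refine (ih h.2 (by omega) ?_).trans (List.suffix_cons b w).isInfix
      simp only [List.length_cons] at l2
      omega

lemma occ_of_infix {u w : List Bool} (h : u <:+: w) :
    ∃ o : ℕ, o + u.length ≤ w.length ∧ ∀ x t, Occ x t w → Occ x (t + o) u := by
  obtain ⟨p, q, rfl⟩ := h
  refine ⟨p.length, by simp, fun x t h => ?_⟩
  rw [occ_append, occ_append] at h
  exact h.1.2

lemma isClopen_occ (t : ℤ) (w : List Bool) : IsClopen {x : ℤ → Bool | Occ x t w} := by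
  induction w generalizing t with
  | nil => exact isClopen_univ
  | cons a w ih =>
    exact ((isClopen_discrete {a}).preimage (continuous_apply t)).inter (ih (t + 1))

def rep : ℕ → List Bool → List Bool
  | 0, _ => []
  | n + 1, u => u ++ rep n u

lemma length_rep (n : ℕ) (u : List Bool) : (rep n u).length = n * u.length := by
  induction n with
  | zero => simp [rep]
  | succ n ih => simp [rep, ih]; ring

lemma Occ.of_rep {x : ℤ → Bool} {u : List Bool} {n : ℕ} {t : ℤ} (h : Occ x t (rep n u)) (j : ℕ)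
    (hj : j < n) : Occ x (t + j * u.length) u := by
  induction n generalizing t j with
  | zero => omega
  | succ n ih =>
    rw [rep, occ_append] at h
    cases j with
    | zero => simpa using h.1
    | succ j =>
      have := ih h.2 j (by omega)
      push_cast
      rwa [show t + (j + 1) * (u.length : ℤ) = t + u.length + j * u.length by ring]

def unit (L : List (List Bool)) : List Bool := L.flatten ++ L.flatten

def R1 (L : List (List Bool)) : List Bool := rep (4 * (unit L).length + 10) (unit L)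

def R2 (L : List (List Bool)) : List Bool :=
  unit L ++ rep (2 * (unit L).length) (false :: unit L)

def WW : ℕ → List (List Bool)
  | 0 => [[false], [true]]
  | k + 1 => (WW k).flatMap fun w => [R1 (WW k) ++ false :: (w ++ R2 (WW k)),
      R1 (WW k) ++ true :: (w ++ R2 (WW k)), R1 (WW k) ++ (w ++ false :: R2 (WW k))]

lemma mem_WW_succ {k : ℕ} {v : List Bool} : v ∈ WW (k + 1) ↔ ∃ w ∈ WW k,
    (∃ s, v = R1 (WW k) ++ s :: (w ++ R2 (WW k))) ∨ v = R1 (WW k) ++ (w ++ false :: R2 (WW k)) := by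
  simp only [WW, List.mem_flatMap, List.mem_cons, List.not_mem_nil, or_false, Bool.exists_bool,
    or_assoc]

lemma up_mem {k : ℕ} {w : List Bool} (h : w ∈ WW k) (s : Bool) :
    R1 (WW k) ++ s :: (w ++ R2 (WW k)) ∈ WW (k + 1) := mem_WW_succ.2 ⟨w, h, Or.inl ⟨s, rfl⟩⟩

lemma up_mem' {k : ℕ} {w : List Bool} (h : w ∈ WW k) :
    R1 (WW k) ++ (w ++ false :: R2 (WW k)) ∈ WW (k + 1) := mem_WW_succ.2 ⟨w, h, Or.inr rfl⟩

def ln : ℕ → ℕ
  | 0 => 1
  | k + 1 => (R1 (WW k)).length + 1 + ln k + (R2 (WW k)).length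

lemma length_mem {k : ℕ} {w : List Bool} (h : w ∈ WW k) : w.length = ln k := by
  induction k generalizing w with
  | zero =>
    simp only [WW, List.mem_cons, List.not_mem_nil, or_false] at h
    rcases h with rfl | rfl <;> rfl
  | succ k ih =>
    obtain ⟨w', hw', ⟨s, rfl⟩ | rfl⟩ := mem_WW_succ.1 h <;>
      simp only [List.length_append, List.length_cons, ih hw', ln] <;> omega

lemma exists_mem (k : ℕ) : ∃ w, w ∈ WW k := by
  induction k with
  | zero => exact ⟨[false], by simp [WW]⟩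
  | succ k ih =>
    obtain ⟨w, hw⟩ := ih
    exact ⟨_, up_mem' hw⟩

lemma ln_pos (k : ℕ) : 0 < ln k := by
  cases k <;> simp only [ln] <;> omega

lemma infix_unit {L : List (List Bool)} {w : List Bool} (h : w ∈ L) : w <:+: unit L :=
  (List.infix_of_mem_flatten h).trans (List.prefix_append _ _).isInfix

lemma ln_le_unit (k : ℕ) : ln k ≤ (unit (WW k)).length := by
  obtain ⟨w, hw⟩ := exists_mem k
  rw [← length_mem hw]
  exact (infix_unit hw).length_le

lemma length_R1 (L : List (List Bool)) :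
    (R1 L).length = (4 * (unit L).length + 10) * (unit L).length := length_rep _ _

lemma length_R2 (L : List (List Bool)) :
    (R2 L).length = (unit L).length + 2 * (unit L).length * ((unit L).length + 1) := by
  simp only [R2, List.length_append, length_rep, List.length_cons]

lemma infix_up {j k : ℕ} (hjk : j ≤ k) {w : List Bool} (h : w ∈ WW j) :
    ∃ v ∈ WW k, w <:+: v := by
  induction k, hjk using Nat.le_induction with
  | base => exact ⟨w, h, List.infix_rfl⟩
  | succ k _ ih =>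
    obtain ⟨v, hv, hwv⟩ := ih
    exact ⟨_, up_mem' hv, hwv.trans ((List.prefix_append _ _).isInfix.trans
      (List.suffix_append _ _).isInfix)⟩

inductive Cat (L : List (List Bool)) : List Bool → Prop
  | base {w : List Bool} : w ∈ L → Cat L w
  | app {u v : List Bool} : Cat L u → Cat L v → Cat L (u ++ v)
  | spc {u v : List Bool} (s : Bool) : Cat L u → Cat L v → Cat L (u ++ s :: v)

lemma cat_flatten {L : List (List Bool)} (M : List (List Bool)) (hM : ∀ w ∈ M, w ∈ L)
    {u : List Bool} (hu : Cat L u) : Cat L (u ++ M.flatten) := by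
  induction M generalizing u with
  | nil => simpa using hu
  | cons a M ih =>
    rw [List.flatten_cons, ← List.append_assoc]
    exact ih (fun w hw => hM w (List.mem_cons_of_mem _ hw))
      (hu.app (Cat.base (hM a List.mem_cons_self)))

lemma cat_unit {L : List (List Bool)} {w : List Bool} (hw : w ∈ L) : Cat L (unit L) := by
  have : Cat L L.flatten := by
    cases L with
    | nil => simp at hw
    | cons a M =>
      rw [List.flatten_cons]
      exact cat_flatten M (fun w hw => List.mem_cons_of_mem _ hw) (Cat.base List.mem_cons_self)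
  exact this.app this

lemma cat_rep {L : List (List Bool)} {u : List Bool} (hu : Cat L u) (n : ℕ) :
    Cat L (rep (n + 1) u) := by
  induction n with
  | zero => simpa [rep] using hu
  | succ n ih => exact hu.app ih

lemma cat_rep' {L : List (List Bool)} {u : List Bool} (hu : Cat L u) (n : ℕ) :
    Cat L (u ++ rep n (false :: u)) := by
  induction n with
  | zero => simpa [rep] using hu
  | succ n ih => exact Cat.spc false hu ih

lemma cat_succ {k : ℕ} {v : List Bool} (h : v ∈ WW (k + 1)) : Cat (WW k) v := by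
  obtain ⟨w, hw, ⟨s, rfl⟩ | rfl⟩ := mem_WW_succ.1 h
  · exact Cat.spc s (cat_rep (cat_unit hw) _) ((Cat.base hw).app (cat_rep' (cat_unit hw) _))
  · exact (cat_rep (cat_unit hw) _).app (Cat.spc false (Cat.base hw) (cat_rep' (cat_unit hw) _))

def Cov (k : ℕ) (v : List Bool) : Prop :=
  ∀ x t, Occ x t v → ∀ n, t ≤ n → n ≤ t + v.length →
    ∃ s, n - ln k ≤ s ∧ s ≤ n ∧ ∃ w ∈ WW k, Occ x s w

lemma cov_cat {k : ℕ} {L : List (List Bool)} (hL : ∀ w ∈ L, Cov k w) {v : List Bool}
    (h : Cat L v) : Cov k v := by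
  induction h with
  | base h => exact hL _ h
  | @app u v _ _ ih1 ih2 =>
    intro x t h n h1 h2
    rw [occ_append] at h
    by_cases c : n ≤ t + u.length
    · exact ih1 x t h.1 n h1 c
    · exact ih2 x _ h.2 n (by omega) (by simp only [List.length_append] at h2; omega)
  | @spc u v s _ _ ih1 ih2 =>
    intro x t h n h1 h2
    rw [occ_append] at h
    by_cases c : n ≤ t + u.length
    · exact ih1 x t h.1 n h1 c
    · exact ih2 x _ h.2.2 n (by omega)
        (by simp only [List.length_append, List.length_cons] at h2; omega)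

lemma cov_mem {k j : ℕ} (hkj : k ≤ j) : ∀ v ∈ WW j, Cov k v := by
  induction j, hkj using Nat.le_induction with
  | base =>
    intro v hv x t h n h1 h2
    exact ⟨t, by rw [length_mem hv] at h2; omega, h1, v, hv, h⟩
  | succ j _ ih => exact fun v hv => cov_cat ih (cat_succ hv)

def Lang (u : List Bool) : Prop := ∃ j, ∃ w ∈ WW j, u <:+: w

lemma Lang.up {u : List Bool} (h : Lang u) : ∃ j, ∀ k, j ≤ k → ∃ w ∈ WW k, u <:+: w := by
  obtain ⟨j, w, hw, h⟩ := h
  refine ⟨j, fun k hk => ?_⟩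
  obtain ⟨v, hv, h'⟩ := infix_up hk hw
  exact ⟨v, hv, h.trans h'⟩

def XP (x : ℤ → Bool) : Prop := ∀ t u, Occ x t u → Lang u

lemma XP.shift {x : ℤ → Bool} (h : XP x) (m : ℤ) : XP (fun n => x (n + m)) :=
  fun _ u hu => h _ u (occ_shift.1 hu)

lemma XP.cover {x : ℤ → Bool} (h : XP x) (k : ℕ) (n : ℤ) :
    ∃ s, n - ln k ≤ s ∧ s ≤ n ∧ ∃ w ∈ WW k, Occ x s w := by
  obtain ⟨j, hj⟩ := (h _ _ (occ_win x (n - ln k) (2 * ln k))).up
  obtain ⟨v, hv, hi⟩ := hj (max j k) (le_max_left _ _)
  obtain ⟨o, ho, hz⟩ := occ_of_infix hi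
  obtain ⟨z, hzv⟩ := exists_occ v (n - ln k - o)
  have h1 := hz z _ hzv
  rw [sub_add_cancel] at h1
  rw [length_win] at ho
  obtain ⟨s, s1, s2, w, hw, hs⟩ := cov_mem (le_max_right j k) v hv z _ hzv n (by omega) (by omega)
  refine ⟨s, s1, s2, w, hw, hs.congr fun m m1 m2 => ?_⟩
  rw [length_mem hw] at m2
  exact (occ_win x _ _).agree h1 m (by omega) (by rw [length_win]; omega)

lemma stretchB {k : ℕ} {v : List Bool} (h : v ∈ WW (k + 1)) {x : ℤ → Bool} {t : ℤ}
    (hx : Occ x t v) (j : ℕ) (hj : j < 4 * (unit (WW k)).length + 10) :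
    Occ x (t + j * (unit (WW k)).length) (unit (WW k)) := by
  obtain ⟨w, hw, ⟨s, rfl⟩ | rfl⟩ := mem_WW_succ.1 h <;>
    exact (occ_append.1 hx).1.of_rep j hj

lemma stretchA {k : ℕ} {v : List Bool} (h : v ∈ WW (k + 1)) {x : ℤ → Bool} {t : ℤ}
    (hx : Occ x t v) (j : ℕ) (hj : j ≤ 2 * (unit (WW k)).length) :
    Occ x (t + (R1 (WW k)).length + 1 + ln k + j * ((unit (WW k)).length + 1)) (unit (WW k)) := by
  have h2 : Occ x (t + (R1 (WW k)).length + 1 + ln k) (R2 (WW k)) := by
    obtain ⟨w, hw, ⟨s, rfl⟩ | rfl⟩ := mem_WW_succ.1 h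
    · have := (occ_append.1 (occ_append.1 hx).2.2).2
      rwa [length_mem hw] at this
    · have := (occ_append.1 (occ_append.1 hx).2).2.2
      rwa [length_mem hw, add_right_comm] at this
  rw [R2, occ_append] at h2
  cases j with
  | zero => simpa using h2.1
  | succ j =>
    have := (h2.2.of_rep j (by omega)).2
    simp only [List.length_cons] at this
    push_cast at this ⊢
    convert this using 1
    ring

lemma crt (h α β q0 : ℤ) (hh : 0 < h) : ∃ q, q0 ≤ q ∧ q < q0 + 2 * h * (2 * h + 1) ∧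
    (2 * h + 1) ∣ 2 * q - α ∧ 2 * h ∣ q - β := by
  set q1 := α * (h + 1) - (α * (h + 1) - β) * (2 * h + 1) with hq1
  have hM : 0 < 2 * h * (2 * h + 1) := by positivity
  have e := Int.mul_ediv_add_emod (q1 - q0) (2 * h * (2 * h + 1))
  have l1 := Int.emod_nonneg (q1 - q0) hM.ne'
  have l2 := Int.emod_lt_of_pos (q1 - q0) hM
  set d := (q1 - q0) / (2 * h * (2 * h + 1))
  refine ⟨q1 - 2 * h * (2 * h + 1) * d, by linarith, by linarith,
    ⟨α - 2 * (α * (h + 1) - β) - 4 * h * d, by rw [hq1]; ring⟩,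
    ⟨-(α * (h + 1) - β) - (2 * h + 1) * d, by rw [hq1]; ring⟩⟩

theorem joint0 {x y : ℤ → Bool} (hx : XP x) (hy : XP y) (k : ℕ) (o o' : ℤ) (ho : 0 ≤ o)
    (ho1 : o ≤ (unit (WW k)).length) (ho' : 0 ≤ o') (ho1' : o' ≤ (unit (WW k)).length) :
    ∃ q, Occ x (2 * q - o) (unit (WW k)) ∧ Occ y (q - o') (unit (WW k)) := by
  obtain ⟨ty, -, -, vy, hvy, oy⟩ := hy.cover (k + 1) 0
  obtain ⟨h, hP⟩ : ∃ h : ℕ, (unit (WW k)).length = 2 * h :=
    ⟨(WW k).flatten.length, by rw [unit, List.length_append]; ring⟩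
  have hl := ln_le_unit k
  have hl0 := ln_pos k
  have e1 := length_R1 (WW k)
  have e2 := length_R2 (WW k)
  obtain ⟨tx, t1, t2, vx, hvx, ox⟩ := hx.cover (k + 1) (2 * (ty + 2 * h) + (R2 (WW k)).length)
  have hA := stretchA hvx ox
  have hB := stretchB hvy oy
  rw [ln] at t1
  rw [hP] at hA hB e1 e2 hl ho1 ho1'
  set r1 : ℕ := (R1 (WW k)).length
  set r2 : ℕ := (R2 (WW k)).length
  set sx : ℤ := tx + r1 + 1 + ln k with hsx
  have hh : (0 : ℤ) < h := by omega
  obtain ⟨q, q1, q2, ⟨j, hj⟩, ⟨j', hj'⟩⟩ := crt h (sx + o) (ty + o') ((sx + o + 1) / 2) hh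
  have e1' : (r1 : ℤ) = (8 * h + 10) * (2 * h) := by rw [e1]; push_cast; ring
  have e2' : (r2 : ℤ) = 2 * h + 4 * h * (2 * h + 1) := by rw [e2]; push_cast; ring
  push_cast at t1 ho1 ho1'
  have hl' : (ln k : ℤ) ≤ 2 * h := by exact_mod_cast hl
  have a1 : 0 ≤ (2 * h + 1) * j := by omega
  have a2 : (2 * h + 1) * j < (2 * h + 1) * (4 * h + 1) := by
    have : 2 * q < sx + o + 1 + 2 * (2 * h * (2 * h + 1)) := by omega
    nlinarith
  have a3 : 0 ≤ 2 * h * j' := by omega
  have a4 : 2 * (2 * h * j') < 2 * (2 * h * (8 * h + 10)) := by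
    have : 2 * q < sx + o + 1 + 2 * (2 * h * (2 * h + 1)) := by omega
    nlinarith
  have j0 : 0 ≤ j := by nlinarith
  have j1 : j < 4 * h + 1 := by nlinarith
  have j2 : 0 ≤ j' := by nlinarith
  have j3 : j' < 8 * h + 10 := by nlinarith
  refine ⟨q, ?_, ?_⟩
  · have := hA j.toNat (by omega)
    rw [Int.toNat_of_nonneg j0] at this
    push_cast at this
    convert this using 1
    linarith
  · have := hB j'.toNat (by omega)
    rw [Int.toNat_of_nonneg j2] at this
    push_cast at this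
    convert this using 1
    linarith

theorem joint {x y : ℤ → Bool} (hx : XP x) (hy : XP y) {u u' : List Bool} (hu : Lang u)
    (hu' : Lang u') (c c' : ℤ) : ∃ q, Occ x (2 * q + c) u ∧ Occ y (q + c') u' := by
  obtain ⟨j, hj⟩ := hu.up
  obtain ⟨j', hj'⟩ := hu'.up
  obtain ⟨w, hw, i1⟩ := hj (max j j') (le_max_left _ _)
  obtain ⟨w', hw', i2⟩ := hj' (max j j') (le_max_right _ _)
  obtain ⟨o, o1, o2⟩ := occ_of_infix (i1.trans (infix_unit hw))
  obtain ⟨o', o1', o2'⟩ := occ_of_infix (i2.trans (infix_unit hw'))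
  obtain ⟨q, h1, h2⟩ := joint0 (hx.shift c) (hy.shift c') (max j j') o o' (by omega) (by omega)
    (by omega) (by omega)
  have a1 := o2 _ _ h1
  have a2 := o2' _ _ h2
  rw [sub_add_cancel, occ_shift] at a1 a2
  exact ⟨q, a1, a2⟩

lemma XP.nonconst {x : ℤ → Bool} (h : XP x) : ∃ i : ℤ, 0 ≤ i ∧ i ≤ ln 1 ∧ x i ≠ x (i + 1) := by
  obtain ⟨s, s1, s2, w, hw, hs⟩ := h.cover 1 (ln 1)
  have := stretchB hw hs 0 (by omega)
  simp only [Nat.cast_zero, zero_mul, add_zero] at this
  have e : unit (WW 0) = [false, true, false, true] := rfl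
  rw [e] at this
  exact ⟨s, by omega, s2, by rw [this.1, this.2.1]; simp⟩

lemma align (m : ℕ) : ∀ (j : ℕ) (w w' : List Bool) (t t' : ℤ), w ∈ WW j → w' ∈ WW j →
    (t - t').natAbs = m → ∃ (k : ℕ) (v v' : List Bool) (s : ℤ), v ∈ WW k ∧ v' ∈ WW k ∧
      (∀ z, Occ z s v → Occ z t w) ∧ (∀ z, Occ z s v' → Occ z t' w') := by
  induction m with
  | zero =>
    intro j w w' t t' hw hw' h
    have : t' = t := by omega
    subst this
    exact ⟨j, w, w', t', hw, hw', fun _ h => h, fun _ h => h⟩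
  | succ m ih =>
    intro j w w' t t' hw hw' h
    have f1 : ∀ (w : List Bool) (t : ℤ) z, Occ z (t - (R1 (WW j)).length)
        (R1 (WW j) ++ (w ++ false :: R2 (WW j))) → Occ z t w := by
      intro w t z h
      have := (occ_append.1 (occ_append.1 h).2).1
      rwa [sub_add_cancel] at this
    have f2 : ∀ (w : List Bool) (t : ℤ) z, Occ z (t - 1 - (R1 (WW j)).length)
        (R1 (WW j) ++ false :: (w ++ R2 (WW j))) → Occ z t w := by
      intro w t z h
      have := (occ_append.1 (occ_append.1 h).2.2).1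
      rwa [sub_add_cancel, sub_add_cancel] at this
    by_cases c : t < t'
    · obtain ⟨k, v, v', s, hv, hv', g1, g2⟩ := ih (j + 1) _ _ (t - (R1 (WW j)).length)
        (t' - 1 - (R1 (WW j)).length) (up_mem' hw) (up_mem hw' false) (by omega)
      exact ⟨k, v, v', s, hv, hv', fun z h => f1 _ _ _ (g1 z h), fun z h => f2 _ _ _ (g2 z h)⟩
    · obtain ⟨k, v, v', s, hv, hv', g1, g2⟩ := ih (j + 1) _ _ (t - 1 - (R1 (WW j)).length)
        (t' - (R1 (WW j)).length) (up_mem hw false) (up_mem' hw') (by omega)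
      exact ⟨k, v, v', s, hv, hv', fun z h => f2 _ _ _ (g1 z h), fun z h => f1 _ _ _ (g2 z h)⟩

def tw (j : ℕ) (s : Bool) (w : List Bool) : ℕ → List Bool
  | 0 => w
  | i + 1 => R1 (WW (j + i)) ++ s :: (tw j s w i ++ R2 (WW (j + i)))

def tp (j : ℕ) (t : ℤ) : ℕ → ℤ
  | 0 => t
  | i + 1 => tp j t i - 1 - (R1 (WW (j + i))).length

lemma tw_mem {j : ℕ} (s : Bool) {w : List Bool} (hw : w ∈ WW j) (i : ℕ) :
    tw j s w i ∈ WW (j + i) := by
  induction i with
  | zero => exact hw
  | succ i ih => exact up_mem ih s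

lemma tp_bound (j : ℕ) (t : ℤ) (i : ℕ) :
    tp j t i ≤ t - i ∧ t + i ≤ tp j t i + ln (j + i) := by
  induction i with
  | zero => simp [tp]
  | succ i ih =>
    have h1 := length_R2 (WW (j + i))
    have h2 := ln_le_unit (j + i)
    have h3 := ln_pos (j + i)
    rw [show j + (i + 1) = (j + i) + 1 by ring, ln, tp]
    omega

lemma exists_tower {j : ℕ} (s : Bool) (w : List Bool) (t : ℤ) :
    ∃ x, ∀ i, Occ x (tp j t i) (tw j s w i) := by
  obtain ⟨x, hx⟩ := IsCompact.nonempty_iInter_of_sequence_nonempty_isCompact_isClosed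
    (fun i => {x | Occ x (tp j t i) (tw j s w i)}) (fun i x hx => by
      have := (occ_append.1 (occ_append.1 hx).2.2).1
      rwa [tp, sub_add_cancel, sub_add_cancel] at this)
    (fun i => exists_occ _ _) (isClopen_occ _ _).isClosed.isCompact
    (fun i => (isClopen_occ _ _).isClosed)
  exact ⟨x, Set.mem_iInter.1 hx⟩

/-- aligned blocks cover arbitrarily large windows -/
def Al (x y : ℤ → Bool) : Prop := ∀ J : ℕ, ∃ (k : ℕ) (t : ℤ) (v v' : List Bool),
  v ∈ WW k ∧ v' ∈ WW k ∧ Occ x t v ∧ Occ y t v' ∧ t ≤ -J ∧ J < t + ln k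

lemma Al.symm {x y : ℤ → Bool} (h : Al x y) : Al y x := fun J => by
  obtain ⟨k, t, v, v', a, b, c, d, e⟩ := h J
  exact ⟨k, t, v', v, b, a, d, c, e⟩

lemma Al.xp {x y : ℤ → Bool} (h : Al x y) : XP x := by
  intro a u hu
  obtain ⟨k, t, v, -, hv, -, ho, -, l1, l2⟩ := h (a.natAbs + u.length)
  exact ⟨k, v, hv, ho.infix_of hu (by omega) (by rw [length_mem hv]; omega)⟩

theorem extend {j : ℕ} {w w' : List Bool} (hw : w ∈ WW j) (hw' : w' ∈ WW j) (t : ℤ) (s : Bool) :
    ∃ x y, Occ x t w ∧ Occ y t w' ∧ Al x y ∧ y (t - 1) = s ∧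
      ∀ n, (n < t ∨ t + ln j ≤ n) → x n = y n := by
  obtain ⟨x, hx⟩ := exists_tower (j := j) s w t
  obtain ⟨y, hy⟩ := exists_tower (j := j) s w' t
  refine ⟨x, y, hx 0, hy 0, fun J => ?_, ?_, fun n hn => ?_⟩
  · obtain ⟨b1, b2⟩ := tp_bound j t (J + t.natAbs + 1)
    exact ⟨_, _, _, _, tw_mem s hw _, tw_mem s hw' _, hx (J + t.natAbs + 1), hy _, by omega,
      by omega⟩
  · have := (occ_append.1 (hy 1)).2.1
    rwa [tp, tp, sub_add_cancel] at this
  · have key : ∀ i, tp j t i ≤ n → n < tp j t i + ln (j + i) → x n = y n := by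
      intro i
      induction i with
      | zero =>
        intro h1 h2
        simp only [tp, add_zero] at h1 h2
        omega
      | succ i ih =>
        intro h1 h2
        obtain ⟨a1, a2, a3⟩ := occ_append.1 (hx (i + 1))
        obtain ⟨b1, b2, b3⟩ := occ_append.1 (hy (i + 1))
        obtain ⟨-, a4⟩ := occ_append.1 a3
        obtain ⟨-, b4⟩ := occ_append.1 b3
        rw [length_mem (tw_mem s hw i)] at a4
        rw [length_mem (tw_mem s hw' i)] at b4
        rw [show j + (i + 1) = (j + i) + 1 by ring, ln] at h2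
        rw [tp] at h1 h2 a1 a2 a4 b1 b2 b4
        by_cases c1 : n < tp j t i - 1
        · exact a1.agree b1 n h1 (by omega)
        · by_cases c2 : n = tp j t i - 1
          · rw [sub_add_cancel] at a2 b2
            rw [c2, a2, b2]
          · by_cases c3 : n < tp j t i + ln (j + i)
            · exact ih (by omega) c3
            · exact a4.agree b4 n (by omega) (by omega)
    obtain ⟨b1, b2⟩ := tp_bound j t (n.natAbs + t.natAbs + 1)
    exact key (n.natAbs + t.natAbs + 1) (by omega) (by omega)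

/-- any two windows extend to an aligned pair which agrees outside a finite set -/
theorem exists_pair {x0 y0 : ℤ → Bool} (hx : XP x0) (hy : XP y0) (K : ℕ) :
    ∃ (N : ℕ) (x y : ℤ → Bool), Al x y ∧ (∀ n : ℤ, (N : ℤ) < |n| → x n = y n) ∧
      ∀ n : ℤ, |n| ≤ K → x n = x0 n ∧ y n = y0 n := by
  obtain ⟨j, hj⟩ := (hx _ _ (occ_win x0 (-K) (2 * K + 1))).up
  obtain ⟨j', hj'⟩ := (hy _ _ (occ_win y0 (-K) (2 * K + 1))).up
  obtain ⟨w, hw, i1⟩ := hj (max j j') (le_max_left _ _)
  obtain ⟨w', hw', i2⟩ := hj' (max j j') (le_max_right _ _)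
  obtain ⟨o, -, o2⟩ := occ_of_infix i1
  obtain ⟨o', -, o2'⟩ := occ_of_infix i2
  obtain ⟨k, v, v', s, hv, hv', g1, g2⟩ := align _ _ w w' (-K - o) (-K - o') hw hw' rfl
  obtain ⟨x, y, h1, h2, h3, -, h4⟩ := extend hv hv' s false
  have a1 := o2 _ _ (g1 x h1)
  have a2 := o2' _ _ (g2 y h2)
  rw [sub_add_cancel] at a1 a2
  refine ⟨s.natAbs + ln k, x, y, h3, fun n hn => h4 n (by rcases abs_cases n with c | c <;> omega),
    fun n hn => ?_⟩
  obtain ⟨n1, n2⟩ := abs_le.1 hn
  exact ⟨a1.agree (occ_win _ _ _) n n1 (by rw [length_win]; omega),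
    a2.agree (occ_win _ _ _) n n1 (by rw [length_win]; omega)⟩

theorem exists_near {x0 y0 : ℤ → Bool} (h : Al x0 y0) {N : ℕ}
    (hN : ∀ n : ℤ, (N : ℤ) < |n| → x0 n = y0 n) (K : ℕ) :
    ∃ x y : ℤ → Bool, Al x y ∧ (∀ n : ℤ, (N : ℤ) < |n| → x n = y n) ∧ y ≠ y0 ∧
      ∀ n : ℤ, |n| ≤ K → x n = x0 n ∧ y n = y0 n := by
  obtain ⟨k, t, v, v', hv, hv', o1, o2, l1, l2⟩ := h K
  obtain ⟨x, y, h1, h2, h3, h5, h4⟩ := extend hv hv' t (!y0 (t - 1))
  have a1 := h1.agree o1
  have a2 := h2.agree o2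
  rw [length_mem hv] at a1
  rw [length_mem hv'] at a2
  refine ⟨x, y, h3, fun n hn => ?_, fun hh => by simp [hh] at h5, fun n hn => ?_⟩
  · by_cases c : n < t ∨ t + ln k ≤ n
    · exact h4 n c
    · rw [a1 n (by omega) (by omega), a2 n (by omega) (by omega), hN n hn]
  · obtain ⟨n1, n2⟩ := abs_le.1 hn
    exact ⟨a1 n (by omega) (by omega), a2 n (by omega) (by omega)⟩

end Pool.Agent.H583Z.Rec.Rg
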