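import Pool.Agent.H583Z.Rec.Grid

set_option autoImplicit false
set_option linter.unusedSectionVars false

namespace Pool.Agent.H583Z.Rec

open Finset Topology

def XX : Type := {p : (ℤ → A) × Odo // Compat p.2 ∧ ∀ k, AllG p.2 k p.1}

instance : TopologicalSpace XX := by unfold XX; infer_instance
instance : T2Space XX := by unfold XX; infer_instance
instance : TotallyDisconnectedSpace XX := by unfold XX; infer_instance
instance (k : ℕ) : SecondCountableTopology (ZMod (len k)) :=
  DiscreteTopology.secondCountableTopology_of_countable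
instance : SecondCountableTopology XX :=
  TopologicalSpace.Subtype.secondCountableTopology
    {p : (ℤ → A) × Odo | Compat p.2 ∧ ∀ k, AllG p.2 k p.1}

lemma isClosed_of_discrete {T D : Type} [TopologicalSpace T] [TopologicalSpace D]
    [DiscreteTopology D] {f : T → D} (hf : Continuous f) (q : D → Prop) :
    IsClopen {p | q (f p)} := (isClopen_discrete {d | q d}).preimage hf

lemma isClosed_forall {T ι : Type} [TopologicalSpace T] {q : ι → T → Prop}
    (h : ∀ i, IsClosed {p | q i p}) : IsClosed {p | ∀ i, q i p} := by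
  rw [Set.ofPred_forall]
  exact isClosed_iInter h

instance : CompactSpace XX := by
  have : IsClosed {p : (ℤ → A) × Odo | Compat p.2 ∧ ∀ k, AllG p.2 k p.1} := by
    refine IsClosed.and ?_ ?_
    · refine isClosed_forall fun k => isClosed_forall fun t => ?_
      exact (isClosed_of_discrete (f := fun p : (ℤ → A) × Odo => (p.2 (k + 1), p.2 k))
        (by fun_prop) (fun d => (t : ZMod (len (k + 1))) + d.1 = 0 →
          (t : ZMod (len k)) + d.2 = 0)).isClosed
    · refine isClosed_forall fun k => isClosed_forall fun t => ?_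
      exact (isClosed_of_discrete (f := fun p : (ℤ → A) × Odo => (p.2 k, val k p.1 t))
        (Continuous.prodMk (by fun_prop) ((continuous_val k t).comp continuous_fst))
        (fun d => (t : ZMod (len k)) + d.1 = 0 → G k d.2)).isClosed
  exact isCompact_iff_compactSpace.1 this.isCompact

def XX.x (p : XX) : ℤ → A := p.1.1
def XX.z (p : XX) : Odo := p.1.2
lemma XX.compat (p : XX) : Compat p.z := p.2.1
lemma XX.good (p : XX) (k : ℕ) : AllG p.z k p.x := p.2.2 k
def XX.mk' (x : ℤ → A) (z : Odo) (hz : Compat z) (hx : ∀ k, AllG z k x) : XX := ⟨(x, z), hz, hx⟩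

lemma XX.ext' {p q : XX} (h1 : p.x = q.x) (h2 : p.z = q.z) : p = q :=
  Subtype.ext (Prod.ext h1 h2)

lemma continuous_x (n : ℤ) : Continuous (fun p : XX => p.x n) :=
  (continuous_apply n).comp (continuous_fst.comp continuous_subtype_val)

lemma continuous_z (k : ℕ) : Continuous (fun p : XX => p.z k) :=
  (continuous_apply k).comp (continuous_snd.comp continuous_subtype_val)

lemma compat_zero : Compat 0 := by
  intro k t h
  simp only [St, Pi.zero_apply, add_zero, ZMod.intCast_zmod_eq_zero_iff_dvd] at h ⊢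
  refine dvd_trans ?_ h
  rw [len_succ]
  push_cast
  exact dvd_mul_left _ _

instance : Nonempty XX := by
  obtain ⟨y, hy⟩ := IsCompact.nonempty_iInter_of_sequence_nonempty_isCompact_isClosed
    (fun k => {y | AllG 0 k y}) (fun i y hy => AllG.down compat_zero hy)
    (fun k => ⟨glue 0 k (fun _ => Classical.arbitrary _), fun t ht => by
      rw [val_glue _ ht]; exact (Classical.arbitrary (W k)).2⟩)
    (isClosed_AllG 0 0).isCompact (fun k => isClosed_AllG 0 k)
  exact ⟨XX.mk' y 0 compat_zero (Set.mem_iInter.1 hy)⟩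

lemma St_shift (z : Odo) (n : ℤ) (k : ℕ) (t : ℤ) :
    St (fun k => z k + (n : ZMod (len k))) k t ↔ St z k (t + n) := by
  unfold St
  push_cast
  rw [show (t : ZMod (len k)) + (z k + n) = t + n + z k by ring]

def shFun (n : ℤ) (p : XX) : XX :=
  XX.mk' (fun t => p.x (t + n)) (fun k => p.z k + (n : ZMod (len k)))
    (fun k t h => (St_shift _ _ _ _).2 (p.compat k _ ((St_shift _ _ _ _).1 h)))
    (fun k t h => by
      have := p.good k _ ((St_shift _ _ _ _).1 h)
      convert this using 1
      funext i
      simp only [val]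
      congr 1
      ring)

@[simp] lemma shFun_x (n : ℤ) (p : XX) (t : ℤ) : (shFun n p).x t = p.x (t + n) := rfl
@[simp] lemma shFun_z (n : ℤ) (p : XX) (k : ℕ) : (shFun n p).z k = p.z k + n := rfl

lemma shFun_add (m n : ℤ) (p : XX) : shFun m (shFun n p) = shFun (m + n) p := by
  apply XX.ext'
  · funext t
    simp [add_assoc]
  · funext k
    simp only [shFun_z]
    push_cast
    ring

lemma shFun_zero (p : XX) : shFun 0 p = p := by
  apply XX.ext'
  · funext t
    simp
  · funext k
    simp

lemma continuous_shFun (n : ℤ) : Continuous (shFun n) := by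
  apply Continuous.subtype_mk
  exact Continuous.prodMk (continuous_pi fun t => continuous_x _)
    (continuous_pi fun k => (continuous_z k).add continuous_const)

def sh (n : ℤ) : XX ≃ₜ XX where
  toFun := shFun n
  invFun := shFun (-n)
  left_inv p := by rw [shFun_add, neg_add_cancel, shFun_zero]
  right_inv p := by rw [shFun_add, add_neg_cancel, shFun_zero]
  continuous_toFun := continuous_shFun n
  continuous_invFun := continuous_shFun (-n)

lemma sh_iter (n : ℕ) (p : XX) : (sh 1)^[n] p = shFun n p := by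
  induction n with
  | zero => simp [shFun_zero]
  | succ n ih =>
    rw [Function.iterate_succ_apply', ih]
    show shFun 1 (shFun n p) = _
    rw [shFun_add]
    congr 1
    push_cast
    ring

lemma sh_zpow (n : ℤ) : (sh 1) ^ n = sh n := by
  induction n using Int.induction_on with
  | zero => ext p; exact (shFun_zero p).symm
  | succ n ih =>
    rw [zpow_add_one, ih]
    ext p
    exact shFun_add _ _ _
  | pred n ih =>
    rw [zpow_sub_one, ih]
    ext p
    exact shFun_add _ _ _

lemma z_eq_of_le {z z' : Odo} (hz : Compat z) (hz' : Compat z') {k K : ℕ} (h : k ≤ K)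
    (e : z K = z' K) : z k = z' k := by
  induction K, h using Nat.le_induction with
  | base => exact e
  | succ K _ ih =>
    apply ih
    have h1 := St_bs z (K + 1) 0
    have h2 : St z' (K + 1) (bs z (K + 1) 0) := by
      unfold St at h1 ⊢
      rwa [← e]
    have a1 := hz K _ h1
    have a2 := hz' K _ h2
    unfold St at a1 a2
    exact add_left_cancel (a1.trans a2.symm)

def Agree (K : ℕ) (p q : XX) : Prop := p.z K = q.z K ∧ ∀ n : ℤ, |n| ≤ K → p.x n = q.x n

lemma Agree.mono {k K : ℕ} (h : k ≤ K) {p q : XX} (a : Agree K p q) : Agree k p q :=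
  ⟨z_eq_of_le p.compat q.compat h a.1, fun n hn => a.2 n (le_trans hn (by exact_mod_cast h))⟩

lemma Agree.refl (K : ℕ) (p : XX) : Agree K p p := ⟨rfl, fun _ _ => rfl⟩

lemma Agree.trans {K : ℕ} {p q r : XX} (a : Agree K p q) (b : Agree K q r) : Agree K p r :=
  ⟨a.1.trans b.1, fun n hn => (a.2 n hn).trans (b.2 n hn)⟩

lemma isClopen_agree (K : ℕ) (p : XX) : IsClopen {q | Agree K p q} := by
  apply IsClopen.inter
  · exact isClosed_of_discrete (continuous_z K) (fun d => p.z K = d)
  · have : {q : XX | ∀ n : ℤ, |n| ≤ K → p.x n = q.x n} =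
        ⋂ n ∈ Finset.Icc (-(K : ℤ)) K, {q : XX | p.x n = q.x n} := by
      ext q
      simp [abs_le]
    show IsClopen {q : XX | ∀ n : ℤ, |n| ≤ K → p.x n = q.x n}
    rw [this]
    exact isClopen_biInter_finset fun n _ =>
      isClosed_of_discrete (continuous_x n) (fun d => p.x n = d)

lemma exists_agree_subset {p : XX} {U : Set XX} (hU : U ∈ 𝓝 p) :
    ∃ K, ∀ q, Agree K p q → q ∈ U := by
  have := exists_subset_nhds_of_compactSpace (V := fun K => {q | Agree K p q})
    (fun a b => ⟨max a b, fun q hq => Agree.mono (le_max_left _ _) hq,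
      fun q hq => Agree.mono (le_max_right _ _) hq⟩)
    (fun K => (isClopen_agree K p).isClosed) (U := U) (by
      intro q hq
      have hq' : ∀ K, Agree K p q := Set.mem_iInter.1 hq
      have : p = q := XX.ext' (funext fun n => (hq' n.natAbs).2 n (by simp))
        (funext fun k => (hq' k).1)
      rwa [← this])
  exact this

lemma exists_agree_clopen {Q : Set XX} (hQ : IsClopen Q) :
    ∃ K, ∀ p ∈ Q, ∀ q, Agree K p q → q ∈ Q := by
  have h : ∀ p : Q, ∃ K, ∀ q, Agree K p.1 q → q ∈ Q := fun p =>
    exists_agree_subset (hQ.isOpen.mem_nhds p.2)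
  choose K hK using h
  obtain ⟨s, hs⟩ := hQ.isClosed.isCompact.elim_finite_subcover
    (fun p : Q => {q | Agree (K p) p.1 q}) (fun p => (isClopen_agree _ _).isOpen)
    (fun p hp => Set.mem_iUnion.2 ⟨⟨p, hp⟩, Agree.refl _ _⟩)
  refine ⟨s.sup K, fun p hp q hq => ?_⟩
  obtain ⟨p', hp', h⟩ := Set.mem_iUnion₂.1 (hs hp)
  exact hK p' q (Agree.trans h (hq.mono (le_sup hp')))

lemma exists_agree_shift (p q : XX) (K : ℕ) : ∃ n : ℕ, Agree K q (shFun n p) := by
  set t0 := bs q.z K 0 with ht0
  have s0 : St q.z K t0 := St_bs _ _ _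
  have b1 := bs_le q.z K 0
  have b2 := lt_bs q.z K 0
  have hK : (K : ℤ) < len K := by exact_mod_cast lt_len K
  obtain ⟨w, hw⟩ := exists_triple (k := K) ⟨_, q.good K _ (s0.add (-1))⟩ ⟨_, q.good K _ s0⟩
    ⟨_, q.good K _ (s0.add 1)⟩
  set s := bs p.z (K + 2) (len (K + 2)) with hs
  have hs0 : St p.z (K + 2) s := St_bs _ _ _
  have hs1 : 0 < s := by linarith [lt_bs p.z (K + 2) (len (K + 2))]
  obtain ⟨j, hj⟩ : ∃ j : Fin (mm (len (K + 1))),
      val (K + 1) p.x (s + (j : ℕ) * (len (K + 1) : ℤ)) = w.1 := by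
    have := (p.good (K + 2) s hs0).2 w.1 w.2
    obtain ⟨j, hj⟩ := card_pos.1 (lt_of_lt_of_le (by norm_num) this)
    exact ⟨j, by rw [← slot_val]; simpa using hj⟩
  set s' := s + (j : ℕ) * (len (K + 1) : ℤ) with hs'
  have hs2 : 0 < s' := by
    have : (0 : ℤ) ≤ (j : ℕ) * (len (K + 1) : ℤ) := by positivity
    linarith
  have st' : St p.z K s' := p.compat K _ ((p.compat (K + 1) _ hs0).add _)
  have hm := mm_ge (len K)
  have v : ∀ i : Fin (mm (len K)), val K p.x (s' + (i : ℕ) * (len K : ℤ)) = (slots w i).1 := by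
    intro i
    rw [← slot_val, hj]
    rfl
  have v0 := v ⟨0, by omega⟩
  have v1 := v ⟨1, by omega⟩
  have v2 := v ⟨2, by omega⟩
  rw [(hw _).1 rfl] at v0
  rw [(hw _).2.1 rfl] at v1
  rw [(hw _).2.2 rfl] at v2
  have hl := len_pos' K
  refine ⟨(s' + len K - t0).toNat, ?_, fun n hn => ?_⟩
  · rw [shFun_z, Int.toNat_of_nonneg (by linarith)]
    have a1 := st'.add 1
    unfold St at a1 s0
    push_cast at a1 ⊢
    linear_combination s0 - a1
  · rw [shFun_x, Int.toNat_of_nonneg (by linarith)]
    obtain ⟨hn1, hn2⟩ := abs_le.1 hn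
    by_cases c1 : n < t0
    · have := congrFun v0 ⟨(n - t0 + len K).toNat, by omega⟩
      simp only [val] at this
      convert this.symm using 2 <;> omega
    · by_cases c2 : n < t0 + len K
      · have := congrFun v1 ⟨(n - t0).toNat, by omega⟩
        simp only [val] at this
        convert this.symm using 2 <;> omega
      · have := congrFun v2 ⟨(n - t0 - len K).toNat, by omega⟩
        simp only [val] at this
        convert this.symm using 2 <;> omega

lemma dense_orbit (p : XX) : Dense (Set.range fun n : ℕ => shFun n p) := by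
  intro q
  rw [mem_closure_iff_nhds]
  intro U hU
  obtain ⟨K, hK⟩ := exists_agree_subset hU
  obtain ⟨n, hn⟩ := exists_agree_shift p q K
  exact ⟨_, hK _ hn, n, rfl⟩

end Pool.Agent.H583Z.Rec
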