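import Pool.Agent.H583Z.Rec.Comb

set_option autoImplicit false
set_option linter.unusedSectionVars false

namespace Pool.Agent.H583Z.Rec

open Finset

abbrev A : Type := Bool × Bool

def nrA (a b : A) : Prop := a.1 = b.1 ∨ a.2 = b.2

def fl (a : A) : A := (!a.1, !a.2)

lemma fl_fl (a : A) : fl (fl a) = a := by simp [fl]

lemma ne_of_nrA {a b : A} (h : nrA b (fl a)) : b ≠ a := by
  rintro rfl
  revert h
  unfold nrA fl
  simp

def mm (l : ℕ) : ℕ := 8 * 4 ^ l + 8

def len : ℕ → ℕ
  | 0 => 1
  | k + 1 => mm (len k) * len k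

lemma mm_pos (l : ℕ) : 0 < mm l := by unfold mm; positivity

lemma mm_ge (l : ℕ) : 16 ≤ mm l := by
  have : 1 ≤ 4 ^ l := Nat.one_le_pow _ _ (by norm_num)
  unfold mm; omega

lemma len_pos (k : ℕ) : 0 < len k := by
  induction k with
  | zero => exact one_pos
  | succ k ih => exact Nat.mul_pos (mm_pos _) ih

instance (k : ℕ) : NeZero (len k) := ⟨(len_pos k).ne'⟩

lemma len_succ (k : ℕ) : len (k + 1) = mm (len k) * len k := rfl

lemma lt_len (k : ℕ) : k < len k := by
  induction k with
  | zero => exact one_pos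
  | succ k ih =>
    have := mm_ge (len k)
    rw [len_succ]
    nlinarith

def slot {l m : ℕ} (w : Fin (m * l) → A) (j : Fin m) : Fin l → A :=
  fun i => w (finProdFinEquiv (j, i))

def G : (k : ℕ) → (Fin (len k) → A) → Prop
  | 0, _ => True
  | k + 1, w => (∀ j, G k (slot (m := mm (len k)) w j)) ∧
      ∀ v, G k v → 4 ≤ #{j : Fin (mm (len k)) | slot (m := mm (len k)) w j = v}

def W (k : ℕ) : Type := {w : Fin (len k) → A // G k w}

noncomputable instance (k : ℕ) : Fintype (W k) := by
  classical
  unfold W
  infer_instance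

instance (k : ℕ) : DecidableEq (W k) := fun a b =>
  decidable_of_iff (a.1 = b.1) Subtype.ext_iff.symm

lemma card_W (k : ℕ) : Fintype.card (W k) ≤ 4 ^ len k := by
  have := Fintype.card_le_of_injective (fun w : W k => w.1) Subtype.val_injective
  simpa using this

lemma G_succ_of {k : ℕ} (w : Fin (len (k + 1)) → A) (u : Fin (mm (len k)) → W k)
    (hw : ∀ j, slot (m := mm (len k)) w j = (u j).1) (hu : Rich u) : G (k + 1) w := by
  refine ⟨fun j => hw j ▸ (u j).2, fun v hv => le_trans (hu ⟨v, hv⟩) (card_le_card ?_)⟩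
  intro j hj
  simp only [mem_filter, mem_univ, true_and] at hj ⊢
  rw [hw j, hj]

def slots {k : ℕ} (w : W (k + 1)) : Fin (mm (len k)) → W k :=
  fun j => ⟨slot (m := mm (len k)) w.1 j, w.2.1 j⟩

lemma rich_slots {k : ℕ} (w : W (k + 1)) : Rich (slots w) := by
  intro v
  refine le_trans (w.2.2 v.1 v.2) (card_le_card ?_)
  intro j hj
  simp only [mem_filter, mem_univ, true_and] at hj ⊢
  exact Subtype.ext hj

def ofSlots {k : ℕ} (u : Fin (mm (len k)) → W k) (hu : Rich u) : W (k + 1) :=
  ⟨fun n : Fin (mm (len k) * len k) =>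
      (u (finProdFinEquiv.symm n).1).1 (finProdFinEquiv.symm n).2,
    G_succ_of _ u (fun j => by funext i; simp [slot]) hu⟩

lemma slots_ofSlots {k : ℕ} (u : Fin (mm (len k)) → W k) (hu : Rich u) :
    slots (ofSlots u hu) = u := by
  funext j
  apply Subtype.ext
  funext i
  show (u (finProdFinEquiv.symm (finProdFinEquiv (j, i))).1).1
    (finProdFinEquiv.symm (finProdFinEquiv (j, i))).2 = (u j).1 i
  rw [Equiv.symm_apply_apply]

lemma ofSlots_slots {k : ℕ} (w : W (k + 1)) : ofSlots (slots w) (rich_slots w) = w := by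
  apply Subtype.ext
  funext n
  simp only [slots, slot, ofSlots]
  exact congrArg w.1 (finProdFinEquiv.apply_symm_apply n)

def nrW (k : ℕ) (a b : W k) : Prop := ∀ i, nrA (a.1 i) (b.1 i)

lemma nrW_refl (k : ℕ) (a : W k) : nrW k a a := fun _ => Or.inl rfl

lemma nrW_symm (k : ℕ) (a b : W k) (h : nrW k a b) : nrW k b a :=
  fun i => (h i).imp Eq.symm Eq.symm

lemma nrW_conn (k : ℕ) : ∀ a b : W k, Relation.ReflTransGen (nrW k) a b := by
  induction k with
  | zero =>
    intro a b
    let c : W 0 := ⟨fun i => ((a.1 i).1, (b.1 i).2), trivial⟩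
    exact (Relation.ReflTransGen.single (show nrW 0 a c from fun _ => Or.inl rfl)).tail
      (show nrW 0 c b from fun _ => Or.inr rfl)
  | succ k ih =>
    intro a b
    have h := conn_rich (nrW_refl k) (nrW_symm k) ih (rich_slots b) _ (slots a) (rich_slots a)
      le_rfl
    have key : ∀ v, Relation.ReflTransGen (Adj (nrW k)) (slots a) v → ∀ hv : Rich v,
        Relation.ReflTransGen (nrW (k + 1)) a (ofSlots v hv) := by
      intro v hv
      induction hv with
      | refl =>
        intro _
        rw [ofSlots_slots]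
      | tail _ h ih' =>
        intro hv
        exact (ih' h.1).tail (fun n => h.2.2 _ _)
    have := key _ h (rich_slots b)
    rwa [ofSlots_slots] at this

lemma G_fl (k : ℕ) : ∀ w : Fin (len k) → A, G k w → G k (fl ∘ w) := by
  induction k with
  | zero => intro _ _; trivial
  | succ k ih =>
    intro w hw
    refine ⟨fun j => ih _ (hw.1 j), fun v hv => le_trans (hw.2 _ (ih v hv)) (card_le_card ?_)⟩
    intro j hj
    simp only [mem_filter, mem_univ, true_and] at hj ⊢
    funext i
    have := congrFun hj i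
    simp only [slot, Function.comp] at this ⊢
    rw [this, fl_fl]

def flW {k : ℕ} (w : W k) : W k := ⟨fl ∘ w.1, G_fl k _ w.2⟩

lemma rich_flW {k : ℕ} {ι : Type} [Fintype ι] [DecidableEq ι] {u : ι → W k} (hu : Rich u) :
    Rich (fun j => flW (u j)) := by
  intro w
  refine le_trans (hu (flW w)) (card_le_card ?_)
  intro j hj
  simp only [mem_filter, mem_univ, true_and] at hj ⊢
  rw [hj]
  apply Subtype.ext
  funext i
  simp [flW, fl_fl]

lemma card_le_mm (k : ℕ) : 4 * Fintype.card (W k) + (4 * 4 ^ len k + 8) ≤ mm (len k) := by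
  have := card_W k
  unfold mm
  omega

instance nonempty_W (k : ℕ) : Nonempty (W k) := by
  induction k with
  | zero => exact ⟨⟨fun _ => (false, false), trivial⟩⟩
  | succ k ih =>
    obtain ⟨a⟩ := ih
    obtain ⟨v, hv⟩ := fill_free (fun _ : Fin (mm (len k)) => a) ∅ (by
      have := card_le_mm k
      simp only [card_empty, Fintype.card_fin]
      omega)
    exact ⟨ofSlots v (fun w => by simpa using hv w)⟩

/-- any three words occur consecutively in a word of the next level -/
lemma exists_triple {k : ℕ} (a b c : W k) :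
    ∃ w : W (k + 1), ∀ j : Fin (mm (len k)), (j.1 = 0 → slots w j = a) ∧ (j.1 = 1 → slots w j = b) ∧
      (j.1 = 2 → slots w j = c) := by
  classical
  let J : Finset (Fin (mm (len k))) := {j | j.1 < 3}
  have hJ : #J ≤ 3 := by
    have : #J ≤ #(range 3) := by
      apply card_le_card_of_injOn (fun j => j.1)
      · intro j hj
        simpa [J] using hj
      · intro a _ b _ h
        exact Fin.ext h
    simpa using this
  obtain ⟨v, hv⟩ := fill_free (fun _ : Fin (mm (len k)) => a) J (by
    have := card_le_mm k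
    simp only [Fintype.card_fin]
    omega)
  let u : Fin (mm (len k)) → W k := fun j =>
    if j.1 = 0 then a else if j.1 = 1 then b else if j.1 = 2 then c else v j
  have hu : Rich u := by
    intro w
    refine le_trans (hv w) (card_le_card ?_)
    intro j hj
    simp only [mem_filter, mem_univ, true_and, J, not_lt] at hj ⊢
    simp only [u]
    rw [if_neg (by omega), if_neg (by omega), if_neg (by omega)]
    exact hj.2
  refine ⟨ofSlots u hu, fun j => ?_⟩
  rw [slots_ofSlots]
  refine ⟨fun h => by simp [u, h], fun h => by simp [u, h], fun h => by simp [u, h]⟩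

end Pool.Agent.H583Z.Rec
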